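import Pool.Agent.H16.PS.Aff2

/-!
MP_325208 (helper16): the functional equation of /team-store/H84_325208_full.md has only affine solutions.
-/

set_option autoImplicit false

namespace H16.PS

/-- solutions that vanish at zero are odd -/
theorem odd_of_eq {F : Type*} [Field F] [Finite F] (φ : F → F) (h0 : φ 0 = 0)
    (h1 : Function.Injective φ) (h2 : Function.Injective fun x => x - φ x)
    (h : ∀ x a, (φ x - φ a) ^ 2 = (x - a) * (φ (a + φ x - φ a) - φ a)) (u : F) : φ (-u) = -φ u := by
  by_cases hu : u = 0
  · rw [hu, neg_zero, h0, neg_zero]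
  obtain ⟨D, hD⟩ : ∃ D, φ u = D * u := ⟨φ u / u, by rw [div_mul_cancel₀ _ hu]⟩
  have hD0 : D ≠ 0 := by
    rintro rfl
    exact hu (h1 (by rw [hD, zero_mul, h0]))
  have hD1 : (1 : F) - D ≠ 0 := by
    intro h'
    have : D = 1 := by linear_combination -h'
    refine hu (h2 ?_)
    simp only [hD, h0, this]; ring
  -- the set of `v` with `φ v = D v`
  have hcl : ∀ a v : F, φ a = D * a → φ v = D * v → φ ((1 - D) * a + D * v) = D * ((1 - D) * a + D * v) := by
    intro a v ha hv
    by_cases hav : v - a = 0
    · have : v = a := by linear_combination hav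
      subst this
      rw [show (1 - D) * v + D * v = v by ring]; exact hv
    · have e1 := h v a
      rw [ha, hv, show a + D * v - D * a = (1 - D) * a + D * v by ring] at e1
      have e2 : (v - a) * φ ((1 - D) * a + D * v) = (v - a) * (D * ((1 - D) * a + D * v)) := by
        linear_combination -e1
      exact mul_left_cancel₀ hav e2
  have hz : φ 0 = D * 0 := by rw [h0, mul_zero]
  let V := {v : F // φ v = D * v}
  let f : V → V := fun v => ⟨D * v.1, by
    have := hcl 0 v.1 hz v.2
    rwa [mul_zero, zero_add] at this⟩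
  let g : V → V := fun v => ⟨(1 - D) * v.1, by
    have := hcl v.1 0 v.2 hz
    rwa [mul_zero, add_zero] at this⟩
  have hf : Function.Surjective f := Finite.surjective_of_injective fun v w hvw =>
    Subtype.ext (mul_left_cancel₀ hD0 (congrArg Subtype.val hvw))
  have hg : Function.Surjective g := Finite.surjective_of_injective fun v w hvw =>
    Subtype.ext (mul_left_cancel₀ hD1 (congrArg Subtype.val hvw))
  have hadd : ∀ v w : F, φ v = D * v → φ w = D * w → φ (v + w) = D * (v + w) := by
    intro v w hv hw
    obtain ⟨v', hv'⟩ := hg ⟨v, hv⟩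
    obtain ⟨w', hw'⟩ := hf ⟨w, hw⟩
    have e1 : (1 - D) * v'.1 = v := congrArg Subtype.val hv'
    have e2 : D * w'.1 = w := congrArg Subtype.val hw'
    have := hcl v'.1 w'.1 v'.2 w'.2
    rwa [e1, e2] at this
  let s : V → V := fun v => ⟨u + v.1, hadd u v.1 hD v.2⟩
  have hs : Function.Surjective s := Finite.surjective_of_injective fun v w hvw =>
    Subtype.ext (add_left_cancel (congrArg Subtype.val hvw))
  obtain ⟨v, hv⟩ := hs ⟨0, hz⟩
  have e1 : u + v.1 = 0 := congrArg Subtype.val hv
  have e2 : v.1 = -u := by linear_combination e1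
  have e3 := v.2
  rw [e2] at e3
  rw [e3, hD]; ring

/-- solutions that vanish at zero are additive -/
theorem add_of_eq {F : Type*} [Field F] [Finite F] (φ : F → F) (h0 : φ 0 = 0)
    (h1 : Function.Injective φ) (h2 : Function.Injective fun x => x - φ x)
    (h : ∀ x a, (φ x - φ a) ^ 2 = (x - a) * (φ (a + φ x - φ a) - φ a)) (x y : F) : φ (x + y) = φ x + φ y := by
  by_cases hF : (2 : F) = 0
  · exact add_of_char_two hF φ h0 h1 h2 h x y
  have hmid : ∀ a u : F, φ (a + u) + φ (a - u) = 2 * φ a := by
    intro a u
    have e1 := odd_of_eq (fun v => φ (a + v) - φ a) (by simp) (fun v w hvw => by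
        have : φ (a + v) = φ (a + w) := by simpa using hvw
        exact add_left_cancel (h1 this)) (fun v w hvw => by
        have : (fun x => x - φ x) (a + v) = (fun x => x - φ x) (a + w) := by
          simp only at hvw ⊢
          linear_combination hvw
        exact add_left_cancel (h2 this)) (fun v w => by
        have := h (a + v) (a + w)
        rw [show a + (w + (φ (a + v) - φ a) - (φ (a + w) - φ a)) = a + w + φ (a + v) - φ (a + w) by ring]
        linear_combination this) u
    rw [← sub_eq_add_neg] at e1
    linear_combination e1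
  have e1 := hmid ((x + y) / 2) ((x - y) / 2)
  have e2 := hmid ((x + y) / 2) ((x + y) / 2)
  rw [show (x + y) / 2 + (x - y) / 2 = x by field_simp; ring, show (x + y) / 2 - (x - y) / 2 = y by field_simp; ring] at e1
  rw [show (x + y) / 2 + (x + y) / 2 = x + y by field_simp; ring, sub_self, h0, add_zero] at e2
  rw [e1, e2]

/-- **The functional equation has only affine solutions.** -/
theorem affine_of_eq {F : Type*} [Field F] [Finite F] (φ : F → F) (h1 : Function.Injective φ)
    (h2 : Function.Injective fun x => x - φ x)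
    (h : ∀ x a, (φ x - φ a) ^ 2 = (x - a) * (φ (a + φ x - φ a) - φ a)) : ∃ D, ∀ x, φ x = φ 0 + D * x := by
  have hlin : ∀ ψ : F → F, ψ 0 = 0 → Function.Injective ψ → Function.Injective (fun x => x - ψ x) →
      (∀ x a, (ψ x - ψ a) ^ 2 = (x - a) * (ψ (a + ψ x - ψ a) - ψ a)) → ∀ x, ψ x = ψ 1 * x := by
    intro ψ h0 h1 h2 h x
    have hadd := add_of_eq ψ h0 h1 h2 h
    have hsq : ∀ u, u * ψ (ψ u) = ψ u ^ 2 := by
      intro u
      have := h u 0
      rw [h0] at this
      simp only [sub_zero, zero_add] at this
      exact this.symm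
    have e1 := hsq (x + 1)
    rw [hadd x 1, hadd (ψ x) (ψ 1)] at e1
    have e2 := hsq x
    have e3 := hsq 1
    have e4 : (x * ψ 1 - ψ x) ^ 2 = 0 := by
      linear_combination x * e1 - (x + 1) * e2 + (-x - x ^ 2) * e3
    have e5 : x * ψ 1 - ψ x = 0 := pow_eq_zero_iff (two_ne_zero) |>.1 e4
    linear_combination -e5
  refine ⟨φ 1 - φ 0, fun x => ?_⟩
  have := hlin (fun x => φ x - φ 0) (by simp) (fun v w hvw => h1 (by simpa using hvw)) (fun v w hvw => h2 (by
    simp only at hvw ⊢
    linear_combination hvw)) (fun x a => by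
      have := h x a
      rw [show a + (φ x - φ 0) - (φ a - φ 0) = a + φ x - φ a by ring]
      linear_combination this) x
  linear_combination this

end H16.PS
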