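import Mathlib

/-!
MP_325208 (helper16): the functional equation of /team-store/H84_325208_full.md in characteristic two.
-/

set_option autoImplicit false

namespace H16.PS

/-- in characteristic two the functional equation forces additivity -/
theorem add_of_char_two {F : Type*} [Field F] [Finite F] (hF : (2 : F) = 0) (φ : F → F) (h0 : φ 0 = 0)
    (h1 : Function.Injective φ) (h2 : Function.Injective fun x => x - φ x)
    (h : ∀ x a, (φ x - φ a) ^ 2 = (x - a) * (φ (a + φ x - φ a) - φ a)) (x y : F) : φ (x + y) = φ x + φ y := by
  have hb1 : Function.Surjective φ := Finite.surjective_of_injective h1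
  have hb2 : Function.Surjective fun x => x - φ x := Finite.surjective_of_injective h2
  have hneg : ∀ u : F, -u = u := fun u => by linear_combination (-u) * hF
  -- `φ (φ u) * u = φ u ^ 2`
  have hsq : ∀ u, φ (φ u) * u = φ u ^ 2 := by
    intro u
    have := h u 0
    rw [h0] at this
    simp only [sub_zero, zero_add] at this
    rw [this]; ring
  -- the inverse function is additive
  have key : ∀ z c u v w : F, c ≠ 0 → φ u = z → φ v = z + c → φ w = c → v = u + w := by
    intro z c u v w hc hu hv hw
    obtain ⟨a, ha⟩ := hb2 c
    simp only at ha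
    obtain ⟨b, hb⟩ : ∃ b, b = φ a := ⟨_, rfl⟩
    rw [← hb] at ha
    have hb0 : b ≠ 0 := by
      rintro rfl
      have : a = 0 := h1 (by rw [h0]; exact hb.symm)
      rw [this, sub_zero] at ha
      exact hc ha.symm
    have gen : ∀ z u v : F, φ u = z → φ v = z + c → b * (u + v) = a * c := by
      intro z u v hu hv
      have e1 := h u a
      rw [← hb, hu, show a + z - b = z + c by rw [← ha]; ring] at e1
      have e2 := h v a
      rw [← hb, hv, show a + (z + c) - b = z by linear_combination ha + c * hF] at e2
      have s1 := hsq v
      rw [hv] at s1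
      have s2 := hsq u
      rw [hu] at s2
      have e3 : (z - b) ^ 2 * v = (u - a) * ((z + c) ^ 2 - b * v) := by
        linear_combination v * e1 + (u - a) * s1
      have e4 : (z + c - b) ^ 2 * u = (v - a) * (z ^ 2 - b * u) := by
        linear_combination u * e2 + (v - a) * s2
      have e5 : c * (b * (u + v)) = c * (a * c) := by
        linear_combination (-1 : F) * e3 - e4 + (-(z * b * v) - (z + c) * b * u + b * u * v + a * z ^ 2 + a * z * c) * hF
          - b * (u + v) * ha
      exact mul_left_cancel₀ hc e5
    have g1 := gen z u v hu hv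
    have g2 := gen 0 0 w h0 (by rw [hw, zero_add])
    have g3 : u + v = 0 + w := mul_left_cancel₀ hb0 (g1.trans g2.symm)
    rw [zero_add] at g3
    linear_combination g3 - u * hF
  by_cases hy : φ y = 0
  · have : y = 0 := h1 (by rw [hy, h0])
    rw [this, h0, add_zero, add_zero]
  · obtain ⟨v, hv⟩ := hb1 (φ x + φ y)
    rw [← key (φ x) (φ y) x v y hy rfl hv rfl, hv]

end H16.PS
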