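import Pool.Agent.H97.PS.Stage1

/-!
MP_325208 (helper16): small orders.
-/

set_option autoImplicit false
set_option linter.unusedSectionVars false

open Configuration Finset H8.PS
open scoped Classical

namespace H16.PS

variable {P L : Type*} [Fintype P] [Fintype L] [Membership P L] [ProjectivePlane P L]

/-- the number of tangents is bounded if there are no long lines -/
theorem T_le {B : Finset P} {q d m : ℕ} (h : PlaneData P L q d B) (hm : 2 * m ≤ q)
    (hlong : ∀ l : L, (on B l).card + 2 * m ≤ q + 1) {Z : P} (hZ : Z ∉ B) :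
    (T L B Z).card * (q - 2 * m) + d ≤ (q + 1) * (q - 2 * m) + 1 := by
  have h1 := Pool.Agent.H27.PS.Cnt.sum_through (L := L) B hZ
  have h2 := Pool.Agent.H27.PS.Cnt.card_T (L := L) B hZ
  have h3 := Pool.Agent.H27.PS.Cnt.card_through (L := L) Z
  rw [h.order] at h3
  rw [h.card] at h1
  obtain ⟨s, hs⟩ : ∃ s, q = 2 * m + s := ⟨q - 2 * m, by omega⟩
  have hs' : q - 2 * m = s := by omega
  rw [hs']
  have h4 : ∑ l ∈ Finset.univ.filter (fun l : L => Z ∈ l), (on B l).card + (T L B Z).card * s ≤
      (Finset.univ.filter fun l : L => Z ∈ l).card * (s + 1) := by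
    have h5 : (T L B Z).card = ∑ l ∈ Finset.univ.filter (fun l : L => Z ∈ l), if (on B l).card = 1 then 1 else 0 := by
      rw [h2, ← Finset.filter_filter, Finset.card_filter]
    rw [h5, Finset.sum_mul, ← Finset.sum_add_distrib, Finset.card_eq_sum_ones, Finset.sum_mul]
    refine Finset.sum_le_sum fun l _ => ?_
    have h6 := hlong l
    split_ifs with h7
    · rw [h7]; omega
    · omega
  rw [h1, h3] at h4
  have h5 : (q + 1) * (s + 1) = (q + 1) * s + (q + 1) := by ring
  rw [h5] at h4
  omega

/-- the case `q = 11`, `d = 7` -/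
theorem eleven {B : Finset P} (h : PlaneData P L 11 7 B) : False := by
  have hlong := Pool.Agent.H97.PS.no_long' h (m := 4) (by norm_num) (by norm_num) (by norm_num) (by norm_num)
  have hT2 := fun (Z : P) (hZ : Z ∉ B) =>
    Pool.Agent.H97.PS.T_ge_two' h (m := 4) (by norm_num) (by norm_num) (by norm_num) (by norm_num) hZ
  have hT1 := fun (Z : P) (hZ : Z ∉ B) => T_le h (m := 4) (by norm_num) hlong hZ
  -- every line has one or four holes
  have hone : ∀ l : L, (on B l).card = 1 ∨ (on B l).card = 4 := by
    intro l
    have h1 := hlong l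
    have h2 := h.pos l
    -- a point of `l` outside `B`
    have h3 : (Finset.univ.filter fun p : P => p ∈ l).card = 12 := by
      rw [Pool.Agent.H27.PS.Cnt.card_on, h.order]
    obtain ⟨Z, hZl, hZB⟩ : ∃ Z, Z ∈ l ∧ Z ∉ B := by
      by_contra hcon
      push Not at hcon
      have h4 : (Finset.univ.filter fun p : P => p ∈ l) ⊆ on B l := by
        intro p hp
        rw [Finset.mem_filter] at hp
        rw [mem_on]
        exact ⟨hcon p hp.2, hp.2⟩
      have := Finset.card_le_card h4
      omega
    have h4 := hT2 Z hZB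
    have h5 := hT1 Z hZB
    have h6 : (T L B Z).card = 10 := by omega
    have h7 := Pool.Agent.H27.PS.Cnt.sum_through (L := L) B hZB
    have h8 := Pool.Agent.H27.PS.Cnt.card_T (L := L) B hZB
    have h9 := Pool.Agent.H27.PS.Cnt.card_through (L := L) Z
    rw [h.order] at h9
    rw [h.card] at h7
    by_contra hcon
    push Not at hcon
    have hl : l ∈ Finset.univ.filter (fun l : L => Z ∈ l) := by simpa using hZl
    have h10 : ∑ l ∈ Finset.univ.filter (fun l : L => Z ∈ l), (on B l).card <
        ∑ l ∈ Finset.univ.filter (fun l : L => Z ∈ l), (if (on B l).card = 1 then 1 else 4) := by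
      refine Finset.sum_lt_sum (fun l' _ => ?_) ⟨l, hl, ?_⟩
      · have := hlong l'
        split_ifs with h11
        · omega
        · omega
      · rw [if_neg hcon.1]
        have := hcon.2
        omega
    have h11 : ∑ l ∈ Finset.univ.filter (fun l : L => Z ∈ l), (if (on B l).card = 1 then 1 else 4) + 3 * (T L B Z).card =
        4 * (Finset.univ.filter fun l : L => Z ∈ l).card := by
      rw [h8, ← Finset.filter_filter, Finset.card_filter, Finset.mul_sum, ← Finset.sum_add_distrib,
        Finset.card_eq_sum_ones, Finset.mul_sum]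
      refine Finset.sum_congr rfl fun l' _ => ?_
      split_ifs <;> norm_num
    omega
  have h1 := Pool.Agent.H27.PS.Cnt.sum_on (L := L) B
  rw [h.order, h.card] at h1
  have h2 : Fintype.card L = 11 ^ 2 + 11 + 1 := by
    have := Configuration.ProjectivePlane.card_lines P L
    rw [h.order] at this
    exact this
  have h3 : ∑ l : L, (on B l).card = ∑ l : L, (1 + 3 * if (on B l).card = 4 then 1 else 0) := by
    refine Finset.sum_congr rfl fun l _ => ?_
    rcases hone l with h4 | h4 <;> simp [h4]
  rw [h3, Finset.sum_add_distrib, ← Finset.mul_sum] at h1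
  simp only [Finset.sum_const, Finset.card_univ, smul_eq_mul, mul_one, h2] at h1
  omega

/-- small orders -/
theorem small {B : Finset P} {q d : ℕ} (h : PlaneData P L q d B) (hb : q + 2 ≤ 2 * d) (h3 : 3 * d + 1 ≤ 2 * q)
    (hq : q ≤ 11) : False := by
  obtain ⟨m, hm⟩ : ∃ m, d + m = q := ⟨q - d, by omega⟩
  -- a point outside `B`
  obtain ⟨Z, hZ⟩ : ∃ Z : P, Z ∉ B := by
    by_contra hcon
    push Not at hcon
    have h1 : (Finset.univ : Finset P).card ≤ B.card := Finset.card_le_card fun x _ => hcon x
    have h2 := Configuration.ProjectivePlane.card_points P L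
    rw [h.order] at h2
    rw [Finset.card_univ, h2, h.card] at h1
    nlinarith
  have hlong := Pool.Agent.H97.PS.no_long' h hm (by omega) (by omega) (by omega)
  have h4 := Pool.Agent.H97.PS.T_ge_two' h hm (by omega) (by omega) (by omega) hZ
  have h5 := T_le h (m := m) (by omega) hlong hZ
  by_cases hd : q = 11
  · subst hd
    obtain rfl : d = 7 := by omega
    exact eleven h
  · have h6 : d ≤ 6 := by omega
    have h7 : d = 5 ∧ q = 8 ∨ d = 6 ∧ q = 10 := by omega
    rcases h7 with ⟨rfl, rfl⟩ | ⟨rfl, rfl⟩
    · obtain rfl : m = 3 := by omega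
      norm_num at h5
      omega
    · obtain rfl : m = 4 := by omega
      norm_num at h5
      omega

end H16.PS
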