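import Pool.Agent.H84.PS.Asm
import Pool.Agent.H97.PS.Stage1
import Pool.Agent.H16.PS.Small

/-!
MP_325208 (helper16, helper84): the deficiency of a maximal partial spread of the projective 3-space over a finite field of
order `q`, not a spread, is at least `2 q / 3`, for every `q`.
-/

set_option autoImplicit false
set_option linter.unusedSectionVars false

open Module Finset
open scoped Classical LinearAlgebra.Projectivization

namespace H16.PS

open H8.PS H84.PS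

variable {F : Type*} [Field F] [Fintype F] {B : Finset (ℙ F (Fin 3 → F))} {d : ℕ}

/-- the conic of a point with few tangents -/
theorem stepA' (hPD : PlaneData (ℙ F (Fin 3 → F)) (ℙ F (Fin 3 → F)) (Fintype.card F) d B)
    (hG : ∀ Z ∉ B, ∃ (R : Finset (Fin 3 → F)) (w : (Fin 3 → F) → F) (k m : ℕ), Good R w k m ∧
      Fintype.card F ≤ m + d ∧ ∀ X : ℙ F (Fin 3 → F), X.rep ∈ R ↔ X ∈ T (ℙ F (Fin 3 → F)) B Z)
    (h3 : 3 * d + 1 ≤ 2 * Fintype.card F) (hlong : ∀ l : ℙ F (Fin 3 → F), (on B l).card ≤ Fintype.card F - d)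
    {Z : ℙ F (Fin 3 → F)} (hZ : Z ∉ B) (hT : 2 * (T (ℙ F (Fin 3 → F)) B Z).card ≤ 5 * (Fintype.card F - d) + 2) :
    2 * (Fintype.card F - d) + 2 ≤ (T (ℙ F (Fin 3 → F)) B Z).card ∧
    ∃ Q : QuadraticForm F (Fin 3 → F), Pool.Agent.H33.PS.Arc Q ⊤ ∧ (∀ X ∈ T (ℙ F (Fin 3 → F)) B Z, Q X.rep = 0) ∧ Z ∈ ex Q := by
  have hnc : ¬ ∃ l : ℙ F (Fin 3 → F), ∀ X ∈ T (ℙ F (Fin 3 → F)) B Z, X ∈ l := by
    rintro ⟨l, hl⟩
    have h1 : (T (ℙ F (Fin 3 → F)) B Z).card ≤ (on B l).card := by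
      refine Finset.card_le_card fun X hX => ?_
      rw [on, Finset.mem_filter]
      exact ⟨(mem_T.1 hX).1, hl X hX⟩
    have h2 := hPD.cb0' Z hZ
    have h4 := hlong l
    omega
  have hbig : 2 * (Fintype.card F - d) + 2 ≤ (T (ℙ F (Fin 3 → F)) B Z).card := by
    by_contra hcon
    exact hnc (hPD.cb0 Z hZ (by omega))
  refine ⟨hbig, ?_⟩
  obtain ⟨R, w, k, m, hg, hm, hRT⟩ := hG Z hZ
  have hcone := good_cone hg
  have hpts : H84.PS.pts F R = (T (ℙ F (Fin 3 → F)) B Z).card := by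
    rw [card_points hcone]
    congr 1
    ext X
    rw [Finset.mem_filter, hRT]
    simp
  obtain ⟨g, hgQ, hgT, hg0⟩ := conic (F := F) (V := Fin 3 → F) (by simp) m hg (by omega)
  have hA : Arc F g := by
    rcases hgT with ⟨L, L', hL, hL', hLL⟩ | hA
    · exfalso
      obtain ⟨l, hl⟩ := line_of_dual hL
      obtain ⟨l', hl'⟩ := line_of_dual hL'
      have hcov : ∀ X ∈ T (ℙ F (Fin 3 → F)) B Z, X ∈ l ∨ X ∈ l' := by
        intro X hX
        have h1 := hg0 _ ((hRT X).2 hX)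
        rw [hLL] at h1
        rcases mul_eq_zero.1 h1 with h2 | h2
        · exact Or.inl (hl X h2)
        · exact Or.inr (hl' X h2)
      by_cases hne : ((T (ℙ F (Fin 3 → F)) B Z).filter fun X => X ∉ l).Nonempty
      · have h1 := hPD.cb1 Z hZ l hne
        have h2 : ((T (ℙ F (Fin 3 → F)) B Z).filter fun X => X ∉ l).card ≤ (on B l').card := by
          refine Finset.card_le_card fun X hX => ?_
          rw [Finset.mem_filter] at hX
          rw [on, Finset.mem_filter]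
          exact ⟨(mem_T.1 hX.1).1, (hcov X hX.1).resolve_left hX.2⟩
        have h4 := hlong l'
        omega
      · apply hnc
        refine ⟨l, fun X hX => ?_⟩
        by_contra hcon
        exact hne ⟨X, Finset.mem_filter.2 ⟨hX, hcon⟩⟩
    · exact hA
  obtain ⟨Q, hQg, hQA⟩ := to_quad hgQ hA
  refine ⟨Q, hQA, fun X hX => by rw [hQg]; exact hg0 _ ((hRT X).2 hX), ?_⟩
  rw [mem_ex]
  by_contra hcon
  push Not at hcon
  have h5 := few_tangents hgQ hA hcone Z.rep_nonzero (by rw [← hQg]; exact hcon.1) ?_ hg0 (by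
    obtain ⟨x, hx⟩ := hcon.2
    refine ⟨x, ?_⟩
    rw [← hQg, ← hQg, ← hQg]
    exact hx)
  · omega
  · intro v hv v' hv' hspan
    obtain ⟨X, c, hc, hX⟩ := exists_pt (hcone.1 v hv)
    obtain ⟨X', c', hc', hX'⟩ := exists_pt (hcone.1 v' hv')
    have hXT : X ∈ T (ℙ F (Fin 3 → F)) B Z := (hRT X).1 (by rw [hX]; exact hcone.2 v hv c hc)
    have hXT' : X' ∈ T (ℙ F (Fin 3 → F)) B Z := (hRT X').1 (by rw [hX']; exact hcone.2 v' hv' c' hc')
    have hXB : X ∈ B := (mem_T.1 hXT).1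
    have hXB' : X' ∈ B := (mem_T.1 hXT').1
    have hne : X ≠ Z := by rintro rfl; exact hZ hXB
    let l : ℙ F (Fin 3 → F) := Configuration.HasLines.mkLine hne
    have hl := Configuration.HasLines.mkLine_ax (P := ℙ F (Fin 3 → F)) (L := ℙ F (Fin 3 → F)) hne
    have hX'l : X' ∈ l := by
      rw [line_span hne hl.2 hl.1, hX']
      refine Submodule.smul_mem _ _ ?_
      obtain ⟨s, t, rfl⟩ := Submodule.mem_span_pair.1 hspan
      rw [Submodule.mem_span_pair]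
      exact ⟨s, t * c⁻¹, by rw [hX, smul_smul, mul_assoc, inv_mul_cancel₀ hc, mul_one]⟩
    have heq : X' = X := (mem_T.1 hXT).2 l hl.2 hl.1 X' hXB' hX'l
    rw [heq] at hX'
    rw [Submodule.mem_span_singleton]
    exact ⟨c'⁻¹ * c, by rw [mul_smul, ← hX, hX', smul_smul, inv_mul_cancel₀ hc', one_smul]⟩

/-- **The exceptional set.** -/
theorem exceptional' (hPD : PlaneData (ℙ F (Fin 3 → F)) (ℙ F (Fin 3 → F)) (Fintype.card F) d B)
    (hG : ∀ Z ∉ B, ∃ (R : Finset (Fin 3 → F)) (w : (Fin 3 → F) → F) (k m : ℕ), Good R w k m ∧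
      Fintype.card F ≤ m + d ∧ ∀ X : ℙ F (Fin 3 → F), X.rep ∈ R ↔ X ∈ T (ℙ F (Fin 3 → F)) B Z)
    (hq : 12 ≤ Fintype.card F) (h3 : 3 * d + 1 ≤ 2 * Fintype.card F)
    (hlong : ∀ l : ℙ F (Fin 3 → F), (on B l).card ≤ Fintype.card F - d) :
    ∃ E : Finset (ℙ F (Fin 3 → F)), E.card ≤ 2 * Fintype.card F + 6 ∧
      ∀ Z ∉ B, 2 * (T (ℙ F (Fin 3 → F)) B Z).card ≤ 5 * (Fintype.card F - d) + 2 → Z ∈ E := by
  by_cases hall1 : ∀ Z ∉ B, ¬ 2 * (T (ℙ F (Fin 3 → F)) B Z).card ≤ 5 * (Fintype.card F - d) + 2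
  · exact ⟨∅, by simp, fun Z hZ h => absurd h (hall1 Z hZ)⟩
  push Not at hall1
  obtain ⟨Z₁, hZ₁, hT₁⟩ := hall1
  obtain ⟨hb₁, Q₁, hA₁, h0₁, he₁⟩ := stepA' hPD hG h3 hlong hZ₁ hT₁
  have hc₁ := card_ex Q₁ hA₁
  by_cases hall2 : ∀ Z ∉ B, 2 * (T (ℙ F (Fin 3 → F)) B Z).card ≤ 5 * (Fintype.card F - d) + 2 → Z ∈ ex Q₁
  · exact ⟨ex Q₁, by omega, hall2⟩
  push Not at hall2
  obtain ⟨Z₂, hZ₂, hT₂, hn₂⟩ := hall2
  obtain ⟨hb₂, Q₂, hA₂, h0₂, he₂⟩ := stepA' hPD hG h3 hlong hZ₂ hT₂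
  have hc₂ := card_ex Q₂ hA₂
  by_cases hall3 : ∀ Z ∉ B, 2 * (T (ℙ F (Fin 3 → F)) B Z).card ≤ 5 * (Fintype.card F - d) + 2 → Z ∈ ex Q₁ ∪ ex Q₂
  · refine ⟨ex Q₁ ∪ ex Q₂, (Finset.card_union_le _ _).trans (by omega), hall3⟩
  push Not at hall3
  obtain ⟨Z₃, hZ₃, hT₃, hn₃⟩ := hall3
  obtain ⟨hb₃, Q₃, hA₃, h0₃, he₃⟩ := stepA' hPD hG h3 hlong hZ₃ hT₃
  exfalso
  rw [Finset.mem_union, not_or] at hn₃
  have i12 := inter_le hA₁ hA₂ h0₁ h0₂ hn₂ he₂
  have i13 := inter_le hA₁ hA₃ h0₁ h0₃ hn₃.1 he₃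
  have i23 := inter_le hA₂ hA₃ h0₂ h0₃ hn₃.2 he₃
  have hsub : (T (ℙ F (Fin 3 → F)) B Z₁ ∪ T (ℙ F (Fin 3 → F)) B Z₂) ∪ T (ℙ F (Fin 3 → F)) B Z₃ ⊆ B := by
    intro X hX
    rw [Finset.mem_union, Finset.mem_union] at hX
    rcases hX with (hX | hX) | hX <;> exact (mem_T.1 hX).1
  have hcB := Finset.card_le_card hsub
  rw [hPD.card] at hcB
  have e1 := Finset.card_union_add_card_inter (T (ℙ F (Fin 3 → F)) B Z₁) (T (ℙ F (Fin 3 → F)) B Z₂)
  have e2 := Finset.card_union_add_card_inter (T (ℙ F (Fin 3 → F)) B Z₁ ∪ T (ℙ F (Fin 3 → F)) B Z₂)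
    (T (ℙ F (Fin 3 → F)) B Z₃)
  have e3 : ((T (ℙ F (Fin 3 → F)) B Z₁ ∪ T (ℙ F (Fin 3 → F)) B Z₂) ∩ T (ℙ F (Fin 3 → F)) B Z₃).card ≤ 8 := by
    rw [Finset.union_inter_distrib_right]
    exact (Finset.card_union_le _ _).trans (by omega)
  omega

/-- **No plane**, for every order. -/
theorem no_plane_all (hPD : PlaneData (ℙ F (Fin 3 → F)) (ℙ F (Fin 3 → F)) (Fintype.card F) d B)
    (hG : ∀ Z ∉ B, ∃ (R : Finset (Fin 3 → F)) (w : (Fin 3 → F) → F) (k m : ℕ), Good R w k m ∧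
      Fintype.card F ≤ m + d ∧ ∀ X : ℙ F (Fin 3 → F), X.rep ∈ R ↔ X ∈ T (ℙ F (Fin 3 → F)) B Z)
    (hb : Fintype.card F + 2 ≤ 2 * d) (h3 : 3 * d + 1 ≤ 2 * Fintype.card F) : False := by
  rcases Nat.lt_or_ge (Fintype.card F) 12 with hq | hq
  · exact small hPD hb h3 (by omega)
  obtain ⟨m, hm⟩ : ∃ m, d + m = Fintype.card F := ⟨Fintype.card F - d, by omega⟩
  have hlong := Pool.Agent.H97.PS.no_long' hPD hm (by omega) (by omega) (by omega)
  obtain ⟨E, hE, hEZ⟩ := exceptional' hPD hG hq h3 (fun l => by have := hlong l; omega)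
  rcases Nat.lt_or_ge (Fintype.card F) 19 with hq' | hq'
  · -- a point outside `B` and `E`
    obtain ⟨Z, hZ⟩ : ∃ Z : ℙ F (Fin 3 → F), Z ∉ B ∪ E := by
      by_contra hcon
      push Not at hcon
      have h1 : (Finset.univ : Finset (ℙ F (Fin 3 → F))).card ≤ (B ∪ E).card := Finset.card_le_card fun x _ => hcon x
      have h2 := Configuration.ProjectivePlane.card_points (ℙ F (Fin 3 → F)) (ℙ F (Fin 3 → F))
      rw [hPD.order] at h2
      rw [Finset.card_univ, h2] at h1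
      have h4 := Finset.card_union_le B E
      rw [hPD.card] at h4
      nlinarith
    rw [Finset.mem_union, not_or] at hZ
    refine hZ.2 (hEZ Z hZ.1 ?_)
    have h4 := Pool.Agent.H97.PS.T_ge_two' hPD hm (by omega) (by omega) (by omega) hZ.1
    have h5 := T_le hPD (m := m) (by omega) hlong hZ.1
    generalize (T (ℙ F (Fin 3 → F)) B Z).card = t at h4 h5 ⊢
    generalize Fintype.card F = q at *
    obtain rfl : m = q - d := by omega
    have hd1 : d ≤ 12 := by omega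
    have hd2 : 7 ≤ d := by omega
    interval_cases q <;> interval_cases d <;> omega
  · obtain ⟨Z, hZB, hZE, hZT⟩ := Pool.Agent.H27.PS.exists_center_E_pd hPD E hE (by omega) (by omega) h3
    exact hZE (hEZ Z hZB (by omega))

/-- **Main theorem.** A maximal partial spread which is not a spread has deficiency at least `2 q / 3`, over every finite field. -/
theorem main_all {V : Type*} [AddCommGroup V] [Module F V] [Fintype V] [FiniteDimensional F V] (hV : finrank F V = 4)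
    {S : Finset (Submodule F V)} (h2 : ∀ W ∈ S, finrank F W = 2)
    (hd : ∀ W ∈ S, ∀ W' ∈ S, W ≠ W' → W ⊓ W' = ⊥)
    (hmax : ∀ U : Submodule F V, finrank F U = 2 → U ∉ S → ∃ W ∈ S, U ⊓ W ≠ ⊥)
    (hh : ∃ v : V, v ≠ 0 ∧ ∀ W ∈ S, v ∉ W) :
    3 * S.card + 2 * Fintype.card F ≤ 3 * (Fintype.card F ^ 2 + 1) := by
  by_contra hcon
  have hle := card_le_spread hV h2 hd
  have hhalf := H8.PS.main hV h2 hd hmax hh
  obtain ⟨d, hdS⟩ : ∃ d, d + S.card = Fintype.card F ^ 2 + 1 := ⟨Fintype.card F ^ 2 + 1 - S.card, by omega⟩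
  have h3 : 3 * d + 1 ≤ 2 * Fintype.card F := by omega
  have hb : Fintype.card F + 2 ≤ 2 * d := by omega
  have hdq : d < Fintype.card F := by omega
  obtain ⟨v₁, hv₁0, hv₁⟩ := hh
  have h₁ : v₁ ∈ holes S fun W => W := mem_holes.2 ⟨hv₁0, hv₁⟩
  obtain ⟨u, hu⟩ : ∃ u : V, u ∉ Submodule.span F {v₁} := by
    by_contra hcon
    push Not at hcon
    have h3 : (⊤ : Submodule F V) ≤ Submodule.span F {v₁} := fun x _ => hcon x
    have h4 := Submodule.finrank_mono h3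
    rw [finrank_top, hV, finrank_span_singleton hv₁0] at h4
    omega
  have h3' := duality hV hd h2 (finrank_span_pair hv₁0 hu)
  have h4 : 0 < ((holes S fun W => W).filter (· ∈ Submodule.span F {v₁, u})).card := by
    refine Finset.card_pos.2 ⟨v₁, ?_⟩
    rw [Finset.mem_filter]
    exact ⟨h₁, Submodule.subset_span (by simp)⟩
  rw [h3'] at h4
  obtain ⟨δ, hδ⟩ := Finset.card_pos.1 h4
  rw [Finset.mem_filter] at hδ
  have hK : finrank F (LinearMap.ker δ) = 3 := by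
    have := Module.Dual.finrank_ker_add_one_of_ne_zero (K := F) (f := δ) (mem_holes.1 hδ.1).1
    omega
  obtain ⟨j, J⟩ := exists_coord hK
  exact no_plane_all (planeData hV h2 hd hmax hdS hdq hδ.1 J) (good3 hV h2 hd hdS hdq hδ.1 J) hb h3

end H16.PS
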