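import Mathlib

/-!
MP_325208 (helper16): the combinatorial axioms satisfied by the holes in a rich plane of a maximal partial spread.
`𝓛` is the set of lines (as finite sets of points), `B` the set of holes, `tang Z` the set of holes `P` such that the line `ZP`
contains no other hole.
-/

set_option autoImplicit false

open Finset

namespace H16.PS

variable {P : Type*} [DecidableEq P]

/-- the tangent holes of a point `Z` -/
def tang (𝓛 : Finset (Finset P)) (B : Finset P) (Z : P) : Finset P :=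
  B.filter fun b => ∀ l ∈ 𝓛, Z ∈ l → b ∈ l → (l ∩ B).card = 1

/-- the holes of a rich plane -/
structure Pl (𝓛 : Finset (Finset P)) (B : Finset P) (q k d : ℕ) : Prop where
  two : ∀ p p' : P, p ≠ p' → ∃ l ∈ 𝓛, p ∈ l ∧ p' ∈ l
  meet : ∀ l ∈ 𝓛, ∀ l' ∈ 𝓛, l ≠ l' → (l ∩ l').card = 1
  size : ∀ l ∈ 𝓛, l.card = q + 1
  off : ∀ p : P, ∃ l ∈ 𝓛, p ∉ l
  cardB : B.card = q + d
  qkd : q = k + d
  pos : ∀ l ∈ 𝓛, 1 ≤ (l ∩ B).card
  le : ∀ l ∈ 𝓛, (l ∩ B).card ≤ d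
  cb1 : ∀ Z, Z ∉ B → ∀ l ∈ 𝓛, (tang 𝓛 B Z \ l).Nonempty → k + 1 ≤ (tang 𝓛 B Z \ l).card
  cb3 : ∀ Z, Z ∉ B → ∀ l ∈ 𝓛, (tang 𝓛 B Z \ l).card + 1 ≤ 2 * k → ∃ l' ∈ 𝓛, tang 𝓛 B Z \ l ⊆ l'
  cb0 : ∀ Z, Z ∉ B → k + 2 ≤ (tang 𝓛 B Z).card
  cb2 : ∀ Z, Z ∉ B → (tang 𝓛 B Z).card ≤ 2 * k + 1 → ∃ l' ∈ 𝓛, tang 𝓛 B Z ⊆ l'

variable {𝓛 : Finset (Finset P)} {B : Finset P} {q k d : ℕ}

theorem mem_tang {Z b : P} : b ∈ tang 𝓛 B Z ↔ b ∈ B ∧ ∀ l ∈ 𝓛, Z ∈ l → b ∈ l → (l ∩ B).card = 1 := by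
  simp [tang]

namespace Pl

variable (h : Pl 𝓛 B q k d)

include h

theorem eq_of_two {l l' : Finset P} (hl : l ∈ 𝓛) (hl' : l' ∈ 𝓛) {p p' : P} (hp : p ≠ p') (h1 : p ∈ l) (h2 : p' ∈ l)
    (h3 : p ∈ l') (h4 : p' ∈ l') : l = l' := by
  by_contra hne
  have h5 := h.meet l hl l' hl' hne
  have h6 : ({p, p'} : Finset P) ⊆ l ∩ l' := by
    intro x hx
    rw [Finset.mem_insert, Finset.mem_singleton] at hx
    rcases hx with rfl | rfl
    · exact Finset.mem_inter.2 ⟨h1, h3⟩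
    · exact Finset.mem_inter.2 ⟨h2, h4⟩
  have h7 := Finset.card_le_card h6
  rw [Finset.card_pair hp, h5] at h7
  omega

theorem pt_unique {l l' : Finset P} (hl : l ∈ 𝓛) (hl' : l' ∈ 𝓛) (hne : l ≠ l') {p p' : P} (h1 : p ∈ l) (h2 : p' ∈ l)
    (h3 : p ∈ l') (h4 : p' ∈ l') : p = p' := by
  by_contra hp
  exact hne (h.eq_of_two hl hl' hp h1 h2 h3 h4)

theorem exists_pt {l l' : Finset P} (hl : l ∈ 𝓛) (hl' : l' ∈ 𝓛) (hne : l ≠ l') : ∃ p, p ∈ l ∧ p ∈ l' := by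
  have h1 : 0 < (l ∩ l').card := by rw [h.meet l hl l' hl' hne]; omega
  obtain ⟨p, hp⟩ := Finset.card_pos.1 h1
  exact ⟨p, (Finset.mem_inter.1 hp).1, (Finset.mem_inter.1 hp).2⟩

/-- every point is on `q + 1` lines -/
theorem card_through (p : P) : (𝓛.filter fun l => p ∈ l).card = q + 1 := by
  obtain ⟨l₀, hl₀, hp⟩ := h.off p
  rw [← h.size l₀ hl₀]
  have hne : ∀ l ∈ 𝓛, p ∈ l → l ≠ l₀ := by rintro l _ hpl rfl; exact hp hpl
  have : Nonempty P := ⟨p⟩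
  choose! f hf using fun l (hl : l ∈ 𝓛 ∧ p ∈ l) => h.exists_pt hl.1 hl₀ (hne l hl.1 hl.2)
  refine Finset.card_bij (fun l _ => f l) ?_ ?_ ?_
  · intro l hl
    rw [Finset.mem_filter] at hl
    exact (hf l hl).2
  · intro l hl l' hl' heq
    rw [Finset.mem_filter] at hl hl'
    have h1 := hf l hl
    have h2 := hf l' hl'
    have hpf : p ≠ f l := by
      intro h3; exact hp (h3 ▸ h1.2)
    exact h.eq_of_two hl.1 hl'.1 hpf hl.2 h1.1 hl'.2 (heq ▸ h2.1)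
  · intro x hx
    have hpx : p ≠ x := by rintro rfl; exact hp hx
    obtain ⟨l, hl, h1, h2⟩ := h.two p x hpx
    refine ⟨l, Finset.mem_filter.2 ⟨hl, h1⟩, ?_⟩
    exact h.pt_unique hl hl₀ (hne l hl h1) (hf l ⟨hl, h1⟩).1 h2 (hf l ⟨hl, h1⟩).2 hx

/-- the holes are distributed over the lines through a non-hole -/
theorem sum_through {Z : P} (hZ : Z ∉ B) (C : Finset P) (hC : C ⊆ B) :
    ∑ l ∈ 𝓛.filter (fun l => Z ∈ l), (l ∩ C).card = C.card := by
  have h1 := Finset.sum_card_bipartiteAbove_eq_sum_card_bipartiteBelow (s := 𝓛.filter fun l => Z ∈ l) (t := C)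
    (r := fun l b => b ∈ l)
  have h2 : ∀ l ∈ 𝓛.filter (fun l => Z ∈ l), (Finset.bipartiteAbove (fun l b => b ∈ l) C l).card = (l ∩ C).card := by
    intro l _
    congr 1
    ext x
    simp [Finset.bipartiteAbove, and_comm]
  rw [Finset.sum_congr rfl h2] at h1
  rw [h1, Finset.card_eq_sum_ones]
  refine Finset.sum_congr rfl fun b hb => ?_
  have hbZ : Z ≠ b := by rintro rfl; exact hZ (hC hb)
  obtain ⟨l, hl, h3, h4⟩ := h.two Z b hbZ
  rw [Finset.card_eq_one]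
  refine ⟨l, ?_⟩
  ext l'
  simp only [Finset.bipartiteBelow, Finset.mem_filter, Finset.mem_singleton]
  constructor
  · rintro ⟨⟨h5, h6⟩, h7⟩
    exact h.eq_of_two h5 hl hbZ h6 h7 h3 h4
  · rintro rfl
    exact ⟨⟨hl, h3⟩, h4⟩

/-- the number of tangents through a non-hole on a line with `a` holes -/
theorem tangents_ge {X : P} (hX : X ∉ B) {l : Finset P} (hl : l ∈ 𝓛) (hXl : X ∈ l) (_ha : 2 ≤ (l ∩ B).card) :
    k + (l ∩ B).card ≤ ((𝓛.filter fun m => X ∈ m).filter fun m => (m ∩ B).card = 1).card := by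
  have h1 := h.sum_through hX B (Finset.Subset.refl _)
  rw [h.cardB] at h1
  have hlm : l ∈ 𝓛.filter fun m => X ∈ m := Finset.mem_filter.2 ⟨hl, hXl⟩
  rw [← Finset.add_sum_erase _ _ hlm] at h1
  set S := (𝓛.filter fun m => X ∈ m).erase l with hS
  have hScard : S.card = q := by
    rw [hS, Finset.card_erase_of_mem hlm, h.card_through X]; omega
  have h2 : ∑ m ∈ S, (m ∩ B).card ≥ ∑ m ∈ S, (if (m ∩ B).card = 1 then 1 else 2) := by
    refine Finset.sum_le_sum fun m hm => ?_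
    have h3 := h.pos m (Finset.mem_filter.1 (Finset.mem_of_mem_erase hm)).1
    split_ifs with h4
    · omega
    · omega
  have h3 : ∑ m ∈ S, (if (m ∩ B).card = 1 then 1 else 2) + (S.filter fun m => (m ∩ B).card = 1).card = 2 * S.card := by
    rw [Finset.card_filter, ← Finset.sum_add_distrib, Finset.card_eq_sum_ones, Finset.mul_sum]
    refine Finset.sum_congr rfl fun m _ => ?_
    split_ifs <;> rfl
  have h4 : (S.filter fun m => (m ∩ B).card = 1).card ≤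
      ((𝓛.filter fun m => X ∈ m).filter fun m => (m ∩ B).card = 1).card :=
    Finset.card_le_card (Finset.filter_subset_filter _ (Finset.erase_subset _ _))
  have h5 := h.qkd
  omega

/-- the tangent holes correspond to the tangents -/
theorem card_tang {Z : P} (hZ : Z ∉ B) :
    (tang 𝓛 B Z).card = ((𝓛.filter fun m => Z ∈ m).filter fun m => (m ∩ B).card = 1).card := by
  have hne : ∀ b ∈ B, Z ≠ b := by rintro b hb rfl; exact hZ hb
  choose! f hf using fun b (hb : b ∈ B) => h.two Z b (hne b hb)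
  refine Finset.card_bij (fun b _ => f b) ?_ ?_ ?_
  · intro b hb
    rw [mem_tang] at hb
    have h1 := hf b hb.1
    rw [Finset.mem_filter, Finset.mem_filter]
    exact ⟨⟨h1.1, h1.2.1⟩, hb.2 _ h1.1 h1.2.1 h1.2.2⟩
  · intro b hb b' hb' heq
    rw [mem_tang] at hb hb'
    have h1 := hf b hb.1
    have h2 := hf b' hb'.1
    have h3 := hb.2 _ h1.1 h1.2.1 h1.2.2
    rw [Finset.card_eq_one] at h3
    obtain ⟨x, hx⟩ := h3
    have h4 : b ∈ f b ∩ B := Finset.mem_inter.2 ⟨h1.2.2, hb.1⟩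
    have h5 : b' ∈ f b ∩ B := Finset.mem_inter.2 ⟨heq ▸ h2.2.2, hb'.1⟩
    rw [hx, Finset.mem_singleton] at h4 h5
    rw [h4, h5]
  · intro m hm
    rw [Finset.mem_filter, Finset.mem_filter] at hm
    obtain ⟨⟨hm1, hm2⟩, hm3⟩ := hm
    obtain ⟨b, hb⟩ := Finset.card_eq_one.1 hm3
    have hbm : b ∈ m ∩ B := by rw [hb]; exact Finset.mem_singleton_self _
    rw [Finset.mem_inter] at hbm
    have h1 := hf b hbm.2
    have hfm : f b = m := h.eq_of_two h1.1 hm1 (hne b hbm.2) h1.2.1 h1.2.2 hm2 hbm.1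
    refine ⟨b, ?_, hfm⟩
    rw [mem_tang]
    refine ⟨hbm.2, fun l hl h3 h4 => ?_⟩
    have : l = m := h.eq_of_two hl hm1 (hne b hbm.2) h3 h4 hm2 hbm.1
    rw [this]; exact hm3

/-- the hole of a tangent through `Z` is a tangent hole of `Z` -/
theorem mem_tang_of {Z b : P} (hZ : Z ∉ B) {m : Finset P} (hm : m ∈ 𝓛) (h1 : Z ∈ m) (h2 : b ∈ m) (hb : b ∈ B)
    (h3 : (m ∩ B).card = 1) : b ∈ tang 𝓛 B Z := by
  rw [mem_tang]
  have hne : Z ≠ b := by rintro rfl; exact hZ hb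
  refine ⟨hb, fun l hl h4 h5 => ?_⟩
  rw [h.eq_of_two hl hm hne h4 h5 h1 h2]; exact h3

/-- the tangent holes of `Z` off a line `l` not through `Z` -/
theorem card_tang_sdiff {Z : P} (hZ : Z ∉ B) {l : Finset P} (hl : l ∈ 𝓛) (hZl : Z ∉ l) :
    (tang 𝓛 B Z \ l).card + (l ∩ B).card ≤ q + 1 := by
  have h1 : (tang 𝓛 B Z \ l).card ≤ (l \ B).card := by
    have hne : ∀ b ∈ B, Z ≠ b := by rintro b hb rfl; exact hZ hb
    have hf0 : ∀ b, ∃ p, b ∈ tang 𝓛 B Z \ l → p ∈ l ∧ p ∉ B ∧ ∃ m ∈ 𝓛, Z ∈ m ∧ b ∈ m ∧ p ∈ m ∧ (m ∩ B).card = 1 := by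
      intro b
      by_cases hb : b ∈ tang 𝓛 B Z \ l
      · rw [Finset.mem_sdiff, mem_tang] at hb
        obtain ⟨⟨hbB, hbt⟩, hbl⟩ := hb
        obtain ⟨m, hm, h2, h3⟩ := h.two Z b (hne b hbB)
        have hml : m ≠ l := by rintro rfl; exact hZl h2
        obtain ⟨p, hp1, hp2⟩ := h.exists_pt hm hl hml
        have h4 := hbt m hm h2 h3
        refine ⟨p, fun _ => ⟨hp2, ?_, m, hm, h2, h3, hp1, h4⟩⟩
        intro hpB
        obtain ⟨x, hx⟩ := Finset.card_eq_one.1 h4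
        have h5 : b ∈ m ∩ B := Finset.mem_inter.2 ⟨h3, hbB⟩
        have h6 : p ∈ m ∩ B := Finset.mem_inter.2 ⟨hp1, hpB⟩
        rw [hx, Finset.mem_singleton] at h5 h6
        exact hbl (by rw [h5, ← h6]; exact hp2)
      · exact ⟨b, fun h => absurd h hb⟩
    choose f hf using hf0
    refine Finset.card_le_card_of_injOn f ?_ ?_
    · intro b hb
      have := hf b (Finset.mem_coe.1 hb)
      exact Finset.mem_coe.2 (Finset.mem_sdiff.2 ⟨this.1, this.2.1⟩)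
    · intro b hb b' hb' heq
      obtain ⟨h2, h3, m, hm, h4, h5, h6, h7⟩ := hf b (Finset.mem_coe.1 hb)
      obtain ⟨h2', h3', m', hm', h4', h5', h6', h7'⟩ := hf b' (Finset.mem_coe.1 hb')
      have hZf : Z ≠ f b := by intro h8; exact hZl (h8 ▸ h2)
      have hmm : m = m' := h.eq_of_two hm hm' hZf h4 h6 h4' (heq ▸ h6')
      subst hmm
      obtain ⟨x, hx⟩ := Finset.card_eq_one.1 h7
      have h8 : b ∈ m ∩ B := Finset.mem_inter.2 ⟨h5, (mem_tang.1 (Finset.mem_sdiff.1 (Finset.mem_coe.1 hb)).1).1⟩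
      have h9 : b' ∈ m ∩ B := Finset.mem_inter.2 ⟨h5', (mem_tang.1 (Finset.mem_sdiff.1 (Finset.mem_coe.1 hb')).1).1⟩
      rw [hx, Finset.mem_singleton] at h8 h9
      rw [h8, h9]
  have h2 := h.size l hl
  have h3 : (l \ B).card + (l ∩ B).card = l.card := Finset.card_sdiff_add_card_inter l B
  omega

end Pl

end H16.PS
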