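import Pool.Agent.H16.PS.Step2

/-!
MP_325208 (helper16): counting in a rich plane gives a long line if `17 d ≤ 10 q`.
-/

set_option autoImplicit false

open Finset

namespace H16.PS

variable {P : Type*} [DecidableEq P] {𝓛 : Finset (Finset P)} {B : Finset P} {q k d : ℕ}

namespace Pl

variable (h : Pl 𝓛 B q k d)

include h

theorem sum_lines (C : Finset P) : ∑ l ∈ 𝓛, (l ∩ C).card = (q + 1) * C.card := by
  have h1 := Finset.sum_card_bipartiteAbove_eq_sum_card_bipartiteBelow (s := 𝓛) (t := C) (r := fun l b => b ∈ l)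
  have h2 : ∀ l ∈ 𝓛, (Finset.bipartiteAbove (fun l b => b ∈ l) C l).card = (l ∩ C).card := by
    intro l _
    congr 1
    ext x
    simp [Finset.bipartiteAbove, and_comm]
  rw [Finset.sum_congr rfl h2] at h1
  rw [h1, Finset.sum_congr rfl (g := fun _ => q + 1) (fun b _ => ?_), Finset.sum_const, smul_eq_mul, mul_comm]
  exact h.card_through b

theorem sum_pairs (C : Finset P) : ∑ l ∈ 𝓛, (l ∩ C).offDiag.card = C.offDiag.card := by
  have h1 := Finset.sum_card_bipartiteAbove_eq_sum_card_bipartiteBelow (s := 𝓛) (t := C.offDiag)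
    (r := fun l b => b.1 ∈ l ∧ b.2 ∈ l)
  have h2 : ∀ l ∈ 𝓛, (Finset.bipartiteAbove (fun l b => b.1 ∈ l ∧ b.2 ∈ l) C.offDiag l).card = (l ∩ C).offDiag.card := by
    intro l _
    congr 1
    ext x
    simp only [Finset.bipartiteAbove, Finset.mem_filter, Finset.mem_offDiag, Finset.mem_inter]
    tauto
  rw [Finset.sum_congr rfl h2] at h1
  rw [h1, Finset.card_eq_sum_ones C.offDiag]
  refine Finset.sum_congr rfl fun x hx => ?_
  rw [Finset.mem_offDiag] at hx
  obtain ⟨l, hl, h3, h4⟩ := h.two x.1 x.2 hx.2.2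
  rw [Finset.card_eq_one]
  refine ⟨l, ?_⟩
  ext l'
  simp only [Finset.bipartiteBelow, Finset.mem_filter, Finset.mem_singleton]
  constructor
  · rintro ⟨h5, h6, h7⟩
    exact h.eq_of_two h5 hl hx.2.2 h6 h7 h3 h4
  · rintro rfl
    exact ⟨hl, h3, h4⟩

theorem card_lines {l₀ : Finset P} (hl₀ : l₀ ∈ 𝓛) : 𝓛.card = q ^ 2 + q + 1 := by
  have h1 := h.sum_lines l₀
  rw [h.size l₀ hl₀, ← Finset.add_sum_erase _ _ hl₀, Finset.inter_self, h.size l₀ hl₀,
    Finset.sum_congr rfl (g := fun _ => 1) (fun l hl => ?_), Finset.sum_const, smul_eq_mul, mul_one,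
    Finset.card_erase_of_mem hl₀] at h1
  · have h2 : 0 < 𝓛.card := Finset.card_pos.2 ⟨l₀, hl₀⟩
    have h3 : (q + 1) * (q + 1) = q ^ 2 + q + q + 1 := by ring
    rw [h3] at h1
    omega
  · rw [Finset.mem_erase] at hl
    exact h.meet l hl.2 l₀ hl₀ hl.1

theorem mem_U (p : P) : p ∈ 𝓛.biUnion id := by
  obtain ⟨l, hl, hp⟩ := h.off p
  have h1 : 0 < l.card := by rw [h.size l hl]; omega
  obtain ⟨x, hx⟩ := Finset.card_pos.1 h1
  have hne : p ≠ x := by rintro rfl; exact hp hx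
  obtain ⟨m, hm, h2, -⟩ := h.two p x hne
  exact Finset.mem_biUnion.2 ⟨m, hm, h2⟩

theorem card_U (p : P) : (𝓛.biUnion id).card = q ^ 2 + q + 1 := by
  set U := 𝓛.biUnion id with hU
  have h1 := Finset.sum_card_bipartiteAbove_eq_sum_card_bipartiteBelow (s := 𝓛.filter fun l => p ∈ l) (t := U)
    (r := fun l b => b ∈ l)
  have h2 : ∀ l ∈ 𝓛.filter (fun l => p ∈ l), (Finset.bipartiteAbove (fun l b => b ∈ l) U l).card = q + 1 := by
    intro l hl
    rw [Finset.mem_filter] at hl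
    rw [← h.size l hl.1]
    congr 1
    ext x
    simp only [Finset.bipartiteAbove, Finset.mem_filter]
    exact ⟨fun h3 => h3.2, fun h3 => ⟨Finset.mem_biUnion.2 ⟨l, hl.1, h3⟩, h3⟩⟩
  rw [Finset.sum_congr rfl h2, Finset.sum_const, h.card_through p, smul_eq_mul] at h1
  have hp : p ∈ U := h.mem_U p
  rw [← Finset.add_sum_erase _ _ hp, Finset.sum_congr rfl (g := fun _ => 1) (fun b hb => ?_), Finset.sum_const,
    smul_eq_mul, mul_one, Finset.card_erase_of_mem hp] at h1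
  · have h3 : (Finset.bipartiteBelow (fun l b => b ∈ l) (𝓛.filter fun l => p ∈ l) p).card = q + 1 := by
      rw [← h.card_through p]
      congr 1
      ext l
      simp [Finset.bipartiteBelow]
    rw [h3] at h1
    have h4 : 0 < U.card := Finset.card_pos.2 ⟨p, hp⟩
    have h5 : (q + 1) * (q + 1) = q ^ 2 + q + q + 1 := by ring
    rw [h5] at h1
    omega
  · rw [Finset.mem_erase] at hb
    obtain ⟨l, hl, h3, h4⟩ := h.two p b (Ne.symm hb.1)
    rw [Finset.card_eq_one]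
    refine ⟨l, ?_⟩
    ext l'
    simp only [Finset.bipartiteBelow, Finset.mem_filter, Finset.mem_singleton]
    constructor
    · rintro ⟨⟨h5, h6⟩, h7⟩
      exact h.eq_of_two h5 hl (Ne.symm hb.1) h6 h7 h3 h4
    · rintro rfl
      exact ⟨⟨hl, h3⟩, h4⟩

/-- the secants -/
theorem secant_count (hT : ∀ Z, Z ∉ B → 2 * k + 2 ≤ (tang 𝓛 B Z).card) (hB : B.Nonempty) :
    ∑ l ∈ 𝓛.filter (fun l => ¬ (l ∩ B).card = 1), ((q : ℤ) + 1 - (l ∩ B).card) ≤
      ((q : ℤ) ^ 2 + 1 - d) * (q - 1 - 2 * k) := by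
  obtain ⟨b₀, hb₀⟩ := hB
  set U := 𝓛.biUnion id with hU
  have hBU : B ⊆ U := fun b _ => h.mem_U b
  have hUc := h.card_U b₀
  rw [← hU] at hUc
  set C := U \ B with hC
  have hCc : (C.card : ℤ) = (q : ℤ) ^ 2 + 1 - d := by
    have h1 := Finset.card_sdiff_add_card_eq_card hBU
    rw [← hC, hUc, h.cardB] at h1
    have : ((C.card + (q + d) : ℕ) : ℤ) = ((q ^ 2 + q + 1 : ℕ) : ℤ) := by rw [h1]
    push_cast at this
    linarith
  have h1 := Finset.sum_card_bipartiteAbove_eq_sum_card_bipartiteBelow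
    (s := 𝓛.filter fun l => ¬ (l ∩ B).card = 1) (t := C) (r := fun l b => b ∈ l)
  have h2 : ∑ l ∈ 𝓛.filter (fun l => ¬ (l ∩ B).card = 1), ((q : ℤ) + 1 - (l ∩ B).card) =
      ((∑ l ∈ 𝓛.filter (fun l => ¬ (l ∩ B).card = 1), (Finset.bipartiteAbove (fun l b => b ∈ l) C l).card : ℕ) : ℤ) := by
    push_cast
    refine Finset.sum_congr rfl fun l hl => ?_
    rw [Finset.mem_filter] at hl
    have h3 : Finset.bipartiteAbove (fun l b => b ∈ l) C l = l \ B := by
      ext x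
      simp only [Finset.bipartiteAbove, Finset.mem_filter, hC, Finset.mem_sdiff]
      exact ⟨fun h4 => ⟨h4.2, h4.1.2⟩, fun h4 => ⟨⟨h.mem_U x, h4.2⟩, h4.1⟩⟩
    rw [h3]
    have h4 := Finset.card_sdiff_add_card_inter l B
    rw [h.size l hl.1] at h4
    have : (((l \ B).card + (l ∩ B).card : ℕ) : ℤ) = ((q + 1 : ℕ) : ℤ) := by rw [h4]
    push_cast at this
    linarith
  rw [h2, h1]
  push_cast
  rw [← hCc]
  calc ∑ Z ∈ C, ((Finset.bipartiteBelow (fun l b => b ∈ l) (𝓛.filter fun l => ¬ (l ∩ B).card = 1) Z).card : ℤ)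
      ≤ ∑ Z ∈ C, ((q : ℤ) - 1 - 2 * k) := by
        refine Finset.sum_le_sum fun Z hZ => ?_
        have hZB : Z ∉ B := (Finset.mem_sdiff.1 hZ).2
        have h3 := hT Z hZB
        rw [h.card_tang hZB] at h3
        have h4 := Finset.card_filter_add_card_filter_not (s := 𝓛.filter fun m => Z ∈ m) (fun m => (m ∩ B).card = 1)
        rw [h.card_through Z] at h4
        have h5 : Finset.bipartiteBelow (fun l b => b ∈ l) (𝓛.filter fun l => ¬ (l ∩ B).card = 1) Z =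
            (𝓛.filter fun m => Z ∈ m).filter fun m => ¬ (m ∩ B).card = 1 := by
          ext l
          simp only [Finset.bipartiteBelow, Finset.mem_filter]
          tauto
        rw [h5]
        have h6 : ((((𝓛.filter fun m => Z ∈ m).filter fun m => ¬ (m ∩ B).card = 1).card + (2 * k + 2) : ℕ) : ℤ) ≤
            ((q + 1 : ℕ) : ℤ) := by
          exact_mod_cast (by omega)
        push_cast at h6
        linarith
    _ = (C.card : ℤ) * (q - 1 - 2 * k) := by rw [Finset.sum_const, nsmul_eq_mul]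

/-- **Step 1A.** -/
theorem exists_long (hd : 17 * d ≤ 10 * q) (hq : 20 < q) (hqd : q + 2 ≤ 2 * d) : ∃ l, l ∈ long 𝓛 B k := by
  by_contra hcon
  push Not at hcon
  have hqk := h.qkd
  have hT : ∀ Z, Z ∉ B → 2 * k + 2 ≤ (tang 𝓛 B Z).card := by
    intro Z hZ
    by_contra h1
    obtain ⟨l, hl, h2⟩ := h.cb2 Z hZ (by omega)
    apply hcon l
    rw [mem_long]
    refine ⟨hl, ?_⟩
    have h3 := h.cb0 Z hZ
    have h4 : tang 𝓛 B Z ⊆ l ∩ B := fun b hb => Finset.mem_inter.2 ⟨h2 hb, (mem_tang.1 hb).1⟩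
    have := Finset.card_le_card h4
    omega
  have hBn : B.Nonempty := by
    rw [← Finset.card_pos, h.cardB]; omega
  obtain ⟨b₀, hb₀⟩ := hBn
  obtain ⟨l₀, hl₀, -⟩ := h.off b₀
  have h1 := h.secant_count hT ⟨b₀, hb₀⟩
  have h2 := h.card_lines hl₀
  have h3 := h.sum_lines B
  have h4 := h.sum_pairs B
  rw [h.cardB] at h3
  -- pointwise inequality
  have h5 : ∑ l ∈ 𝓛, (60 * (((l ∩ B).card : ℤ) - 1) - 9 * (((l ∩ B).card : ℤ) - 1) ^ 2) ≤
      ∑ l ∈ 𝓛.filter (fun l => ¬ (l ∩ B).card = 1), (100 : ℤ) := by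
    rw [Finset.sum_filter]
    refine Finset.sum_le_sum fun l _ => ?_
    by_cases h6 : (l ∩ B).card = 1
    · rw [if_neg (not_not.2 h6), h6]; norm_num
    · rw [if_pos h6]
      have := sq_nonneg (3 * (((l ∩ B).card : ℤ) - 1) - 10)
      linarith
  have h6 : ∑ l ∈ 𝓛, (((l ∩ B).card : ℤ) - 1) = ((d : ℤ) * (q + 1) - 1) := by
    rw [Finset.sum_sub_distrib, Finset.sum_const, h2]
    have : ((∑ l ∈ 𝓛, (l ∩ B).card : ℕ) : ℤ) = (((q + 1) * (q + d) : ℕ) : ℤ) := by rw [h3]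
    push_cast at this
    rw [this]
    simp only [nsmul_eq_mul]
    push_cast
    ring
  have h7 : ∑ l ∈ 𝓛, (((l ∩ B).card : ℤ) - 1) ^ 2 = ((q : ℤ) + d) * (q + d - 1) - ((d : ℤ) * (q + 1) - 1) := by
    have h8 : ∀ l ∈ 𝓛, (((l ∩ B).card : ℤ) - 1) ^ 2 = ((l ∩ B).offDiag.card : ℤ) - (((l ∩ B).card : ℤ) - 1) := by
      intro l _
      rw [Finset.offDiag_card]
      have : (l ∩ B).card ≤ (l ∩ B).card * (l ∩ B).card := Nat.le_mul_self _
      push_cast [this]
      ring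
    rw [Finset.sum_congr rfl h8, Finset.sum_sub_distrib, h6]
    have h9 : ((∑ l ∈ 𝓛, (l ∩ B).offDiag.card : ℕ) : ℤ) = (B.offDiag.card : ℤ) := by rw [h4]
    push_cast at h9
    rw [h9, Finset.offDiag_card, h.cardB]
    have : q + d ≤ (q + d) * (q + d) := Nat.le_mul_self _
    push_cast [this]
    ring
  -- the sum over secants
  have h8 : ∑ l ∈ 𝓛.filter (fun l => ¬ (l ∩ B).card = 1), ((q : ℤ) + 1 - (l ∩ B).card) =
      (q : ℤ) * ((𝓛.filter (fun l => ¬ (l ∩ B).card = 1)).card : ℤ) - ((d : ℤ) * (q + 1) - 1) := by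
    rw [← h6]
    have h9 : ∑ l ∈ 𝓛, (((l ∩ B).card : ℤ) - 1) = ∑ l ∈ 𝓛.filter (fun l => ¬ (l ∩ B).card = 1), (((l ∩ B).card : ℤ) - 1) := by
      rw [Finset.sum_filter]
      refine Finset.sum_congr rfl fun l _ => ?_
      by_cases h10 : (l ∩ B).card = 1
      · rw [if_neg (not_not.2 h10), h10]; norm_num
      · rw [if_pos h10]
    rw [h9, mul_comm (q : ℤ), ← nsmul_eq_mul, ← Finset.sum_const, ← Finset.sum_sub_distrib]
    refine Finset.sum_congr rfl fun l _ => ?_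
    ring
  rw [h8] at h1
  rw [Finset.sum_sub_distrib, ← Finset.mul_sum, ← Finset.mul_sum, h6, h7, Finset.sum_const, nsmul_eq_mul] at h5
  set n : ℤ := ((𝓛.filter (fun l => ¬ (l ∩ B).card = 1)).card : ℤ) with hn
  have hkz : (k : ℤ) = q - d := by
    have : (q : ℤ) = k + d := by exact_mod_cast hqk
    linarith
  rw [hkz] at h1
  have hdz : 17 * (d : ℤ) ≤ 10 * q := by exact_mod_cast hd
  have hqz : (21 : ℤ) ≤ q := by exact_mod_cast hq
  have hd0 : (0 : ℤ) ≤ d := by positivity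
  have hq0 : (0 : ℤ) ≤ q := by positivity
  -- multiply `h5` by `q`
  have h10 := mul_le_mul_of_nonneg_left h5 hq0
  have h12 : (91 : ℤ) * q ^ 3 - 149 * d * q ^ 2 - 9 * d ^ 2 * q + 109 * q ^ 2 - 122 * d * q + 200 * d ^ 2 + 31 * q - 400 * d
      + 200 ≤ 0 := by
    linarith
  have h13 : 0 ≤ 10 * (q : ℤ) - 17 * d := by linarith
  have h14 : 0 ≤ (10 * (q : ℤ) - 17 * d) * q := mul_nonneg h13 hq0
  have h15 : 0 ≤ (10 * (q : ℤ) - 17 * d) * d := mul_nonneg h13 hd0
  have h16 : 0 ≤ (10 * (q : ℤ) - 17 * d) * q * q := mul_nonneg h14 hq0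
  have h17 : 0 ≤ (10 * (q : ℤ) - 17 * d) * d * q := mul_nonneg h15 hq0
  have h18 : 0 ≤ (d : ℤ) * d := mul_nonneg hd0 hd0
  have h19 : 0 ≤ (q : ℤ) * q * q := mul_nonneg (mul_nonneg hq0 hq0) hq0
  have h20 : 0 ≤ ((q : ℤ) - 21) * q := mul_nonneg (by linarith) hq0
  linarith

/-- **The planar theorem.** -/
theorem planar (hq : 20 < q) (hqd : q + 2 ≤ 2 * d) : 10 * q < 17 * d := by
  by_contra hcon
  push Not at hcon
  obtain ⟨l, hl⟩ := h.exists_long hcon hq hqd
  exact h.false_of_long hl (by omega) hq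

end Pl

end H16.PS
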