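import Pool.Agent.H16.PS.OfConfig
import Pool.Agent.H16.PS.Step1
import Pool.Agent.H8.PS.PlaneData

/-!
MP_325208 (helper16): Step 2 and the planar theorem over `H8.PS.PlaneData`.
-/

set_option autoImplicit false

open Finset
open scoped Classical

namespace H16.PS

variable {P L : Type*} [Fintype P] [Fintype L] [Membership P L] [Configuration.ProjectivePlane P L]

theorem ofPlaneData {q d : ℕ} {B : Finset P} (h : H8.PS.PlaneData P L q d B) (hd : d ≤ q) :
    Pl (lines P L) B q (q - d) d := by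
  have hT : ∀ Z, tangC L B Z = H8.PS.T L B Z := by
    intro Z
    ext X
    simp only [tangC, H8.PS.mem_T, Finset.mem_filter]
  have hon : ∀ l : L, (B.filter fun b => b ∈ l) = H8.PS.on B l := fun l => rfl
  refine Pl.of_config (L := L) h.order (by omega) B h.card (fun l => ?_) (fun l => ?_) (fun Z hZ => ?_)
    (fun Z hZ l => ?_) (fun Z hZ => ?_) (fun Z hZ l => ?_)
  · exact h.pos l
  · exact h.le l
  · rw [hT]; exact h.cb0' Z hZ
  · rw [hT]; exact h.cb1 Z hZ l
  · rw [hT]; exact h.cb0 Z hZ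
  · rw [hT]; exact h.cb3 Z hZ l

/-- Step 2 over `PlaneData`, general numerical form (covers `q = 16` and every `q ≥ 19`, `q ≠ 20`). -/
theorem no_long' {q d : ℕ} {B : Finset P} (h : H8.PS.PlaneData P L q d B) (h3 : 3 * d + 1 ≤ 2 * q)
    (hq : 2 * q + 9 < 7 * (q - d)) (hk : 6 ≤ q - d) (l : L) : (H8.PS.on B l).card ≤ q - d := by
  by_contra hcon
  have hp := ofPlaneData h (by omega)
  refine hp.false_of_long' (l₁ := pts l) (mem_long.2 ⟨mem_lines.2 ⟨l, rfl⟩, ?_⟩) h3 hq hk
  rw [inter_pts]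
  change q - d + 1 ≤ (H8.PS.on B l).card
  omega

/-- **Step 2 over `PlaneData`**: no line has more than `q - d` holes if `3 d < 2 q` and `q > 20`. -/
theorem no_long {q d : ℕ} {B : Finset P} (h : H8.PS.PlaneData P L q d B) (h3 : 3 * d + 1 ≤ 2 * q) (hq : 20 < q) (l : L) :
    (H8.PS.on B l).card ≤ q - d := by
  by_contra hcon
  have hp := ofPlaneData h (by omega)
  refine hp.false_of_long (l₁ := pts l) (mem_long.2 ⟨mem_lines.2 ⟨l, rfl⟩, ?_⟩) h3 hq
  rw [inter_pts]
  change q - d + 1 ≤ (H8.PS.on B l).card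
  omega

/-- the planar theorem over `PlaneData` -/
theorem planarA {q d : ℕ} {B : Finset P} (h : H8.PS.PlaneData P L q d B) (hd : d ≤ q) (hqd : q + 2 ≤ 2 * d) (hq : 20 < q) :
    10 * q < 17 * d :=
  (ofPlaneData h hd).planar hq hqd

end H16.PS
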