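import Pool.Agent.H16.PS.Step2

/-!
MP_325208 (helper16): from a projective plane in the sense of Mathlib to the axioms `Pl`.
-/

set_option autoImplicit false

open Finset
open scoped Classical

namespace H16.PS

variable {P L : Type*} [Fintype P] [Fintype L] [Membership P L] [Configuration.ProjectivePlane P L]

/-- the points of a line -/
noncomputable def pts (l : L) : Finset P := Finset.univ.filter fun p => p ∈ l

theorem mem_pts {l : L} {p : P} : p ∈ (pts l : Finset P) ↔ p ∈ l := by simp [pts]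

/-- the tangent holes in a projective plane -/
noncomputable def tangC (L : Type*) [Membership P L] (B : Finset P) (Z : P) : Finset P :=
  B.filter fun b => ∀ l : L, Z ∈ l → b ∈ l → ∀ b' ∈ B, b' ∈ l → b' = b

/-- the lines as sets of points -/
noncomputable def lines (P L : Type*) [Fintype P] [Fintype L] [Membership P L] : Finset (Finset P) :=
  Finset.univ.image fun l : L => (pts l : Finset P)

theorem mem_lines {x : Finset P} : x ∈ lines P L ↔ ∃ l : L, pts l = x := by simp [lines]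

theorem inter_pts (B : Finset P) (l : L) : (pts l : Finset P) ∩ B = B.filter fun b => b ∈ l := by
  ext x; simp [pts, and_comm]

theorem sdiff_pts (B : Finset P) (l : L) : B \ (pts l : Finset P) = B.filter fun b => b ∉ l := by
  ext x; simp [pts]

theorem tang_eq (B : Finset P) (Z : P) : tang (lines P L) B Z = tangC L B Z := by
  ext b
  simp only [mem_tang, tangC, Finset.mem_filter]
  refine and_congr_right fun hb => ⟨fun h l h1 h2 b' hb' h3 => ?_, fun h x hx h1 h2 => ?_⟩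
  · have h4 := h (pts l) (mem_lines.2 ⟨l, rfl⟩) (mem_pts.2 h1) (mem_pts.2 h2)
    obtain ⟨y, hy⟩ := Finset.card_eq_one.1 h4
    have h5 : b ∈ (pts l : Finset P) ∩ B := Finset.mem_inter.2 ⟨mem_pts.2 h2, hb⟩
    have h6 : b' ∈ (pts l : Finset P) ∩ B := Finset.mem_inter.2 ⟨mem_pts.2 h3, hb'⟩
    rw [hy, Finset.mem_singleton] at h5 h6
    rw [h5, h6]
  · obtain ⟨l, rfl⟩ := mem_lines.1 hx
    rw [Finset.card_eq_one]
    refine ⟨b, ?_⟩
    ext b'
    rw [Finset.mem_inter, Finset.mem_singleton, mem_pts]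
    constructor
    · rintro ⟨h3, h4⟩
      exact h l (mem_pts.1 h1) (mem_pts.1 h2) b' h4 h3
    · rintro rfl
      exact ⟨mem_pts.1 h2, hb⟩

/-- **Bridge.** -/
theorem Pl.of_config {q k d : ℕ} (hq : Configuration.ProjectivePlane.order P L = q) (hk : q = k + d) (B : Finset P)
    (hB : B.card = q + d) (h1 : ∀ l : L, 1 ≤ (B.filter fun b => b ∈ l).card) (h2 : ∀ l : L, (B.filter fun b => b ∈ l).card ≤ d)
    (cb0 : ∀ Z, Z ∉ B → k + 2 ≤ (tangC L B Z).card)
    (cb1 : ∀ Z, Z ∉ B → ∀ l : L, ((tangC L B Z).filter fun b => b ∉ l).Nonempty →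
      k + 1 ≤ ((tangC L B Z).filter fun b => b ∉ l).card)
    (cb2 : ∀ Z, Z ∉ B → (tangC L B Z).card ≤ 2 * k + 1 → ∃ l : L, ∀ b ∈ tangC L B Z, b ∈ l)
    (cb3 : ∀ Z, Z ∉ B → ∀ l : L, ((tangC L B Z).filter fun b => b ∉ l).card + 1 ≤ 2 * k →
      ∃ l' : L, ∀ b ∈ tangC L B Z, b ∉ l → b ∈ l') :
    Pl (lines P L) B q k d where
  two p p' hne := by
    obtain ⟨h3, h4⟩ := Configuration.HasLines.mkLine_ax (L := L) hne
    exact ⟨pts (Configuration.HasLines.mkLine hne), mem_lines.2 ⟨_, rfl⟩, mem_pts.2 h3, mem_pts.2 h4⟩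
  meet l hl l' hl' hne := by
    obtain ⟨x, rfl⟩ := mem_lines.1 hl
    obtain ⟨y, rfl⟩ := mem_lines.1 hl'
    have hxy : x ≠ y := by rintro rfl; exact hne rfl
    obtain ⟨h3, h4⟩ := Configuration.HasPoints.mkPoint_ax (P := P) hxy
    rw [Finset.card_eq_one]
    refine ⟨Configuration.HasPoints.mkPoint hxy, ?_⟩
    ext p
    rw [Finset.mem_inter, mem_pts, mem_pts, Finset.mem_singleton]
    constructor
    · rintro ⟨h5, h6⟩
      exact (Configuration.Nondegenerate.eq_or_eq h5 h3 h6 h4).resolve_right hxy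
    · rintro rfl
      exact ⟨h3, h4⟩
  size l hl := by
    obtain ⟨x, rfl⟩ := mem_lines.1 hl
    rw [← hq, ← Configuration.ProjectivePlane.pointCount_eq P x, Configuration.pointCount, Nat.card_eq_fintype_card,
      Fintype.card_subtype]
    rfl
  off p := by
    obtain ⟨l, hl⟩ := Configuration.Nondegenerate.exists_line (P := P) (L := L) p
    exact ⟨pts l, mem_lines.2 ⟨l, rfl⟩, fun h => hl (mem_pts.1 h)⟩
  cardB := hB
  qkd := hk
  pos l hl := by
    obtain ⟨x, rfl⟩ := mem_lines.1 hl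
    rw [inter_pts]; exact h1 x
  le l hl := by
    obtain ⟨x, rfl⟩ := mem_lines.1 hl
    rw [inter_pts]; exact h2 x
  cb0 Z hZ := by rw [tang_eq]; exact cb0 Z hZ
  cb1 Z hZ l hl := by
    obtain ⟨x, rfl⟩ := mem_lines.1 hl
    rw [tang_eq, sdiff_pts]; exact cb1 Z hZ x
  cb2 Z hZ := by
    rw [tang_eq]
    intro h3
    obtain ⟨l, hl⟩ := cb2 Z hZ h3
    exact ⟨pts l, mem_lines.2 ⟨l, rfl⟩, fun b hb => mem_pts.2 (hl b hb)⟩
  cb3 Z hZ l hl := by
    obtain ⟨x, rfl⟩ := mem_lines.1 hl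
    rw [tang_eq, sdiff_pts]
    intro h3
    obtain ⟨l, hl⟩ := cb3 Z hZ x h3
    refine ⟨pts l, mem_lines.2 ⟨l, rfl⟩, fun b hb => mem_pts.2 ?_⟩
    rw [Finset.mem_filter] at hb
    exact hl b hb.1 hb.2

end H16.PS
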