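import Pool.Agent.H16.PS.Defs

/-!
MP_325208 (helper16): a rich plane with one long line (at least `k + 1` holes) cannot exist if `3 d < 2 q` and `q > 20`.
-/

set_option autoImplicit false

open Finset

namespace H16.PS

variable {P : Type*} [DecidableEq P] {𝓛 : Finset (Finset P)} {B : Finset P} {q k d : ℕ}

/-- the long lines -/
def long (𝓛 : Finset (Finset P)) (B : Finset P) (k : ℕ) : Finset (Finset P) := 𝓛.filter fun l => k + 1 ≤ (l ∩ B).card

theorem mem_long {l : Finset P} : l ∈ long 𝓛 B k ↔ l ∈ 𝓛 ∧ k + 1 ≤ (l ∩ B).card := by simp [long]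

namespace Pl

variable (h : Pl 𝓛 B q k d)

include h

theorem union_long (S : Finset (Finset P)) (hS : S ⊆ long 𝓛 B k) :
    2 * (S.card * (k + 1)) ≤ 2 * (S.biUnion fun l => l ∩ B).card + S.card * (S.card - 1) := by
  induction S using Finset.induction_on with
  | empty => simp
  | insert l S hl ih =>
    have hS' : S ⊆ long 𝓛 B k := (Finset.subset_insert _ _).trans hS
    have hlS := mem_long.1 (hS (Finset.mem_insert_self _ _))
    have ih' := ih hS'
    rw [Finset.biUnion_insert, Finset.card_insert_of_notMem hl]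
    have h1 : ((l ∩ B) ∩ (S.biUnion fun l => l ∩ B)).card ≤ S.card := by
      have h2 : (l ∩ B) ∩ (S.biUnion fun l => l ∩ B) ⊆ S.biUnion fun m => l ∩ m := by
        intro x hx
        rw [Finset.mem_inter, Finset.mem_biUnion] at hx
        obtain ⟨h3, m, hm, h4⟩ := hx
        rw [Finset.mem_biUnion]
        exact ⟨m, hm, Finset.mem_inter.2 ⟨(Finset.mem_inter.1 h3).1, (Finset.mem_inter.1 h4).1⟩⟩
      refine (Finset.card_le_card h2).trans (Finset.card_biUnion_le.trans ?_)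
      rw [Finset.card_eq_sum_ones]
      refine Finset.sum_le_sum fun m hm => ?_
      have hne : l ≠ m := by rintro rfl; exact hl hm
      rw [h.meet l hlS.1 m (mem_long.1 (hS' hm)).1 hne]
    have h5 := Finset.card_union_add_card_inter (l ∩ B) (S.biUnion fun l => l ∩ B)
    have h6 : (S.card + 1) * (S.card + 1 - 1) = S.card * (S.card - 1) + 2 * S.card := by
      rcases Nat.eq_zero_or_pos S.card with h7 | h7
      · simp [h7]
      · obtain ⟨n, hn⟩ := Nat.exists_eq_add_of_lt h7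
        rw [hn]; simp only [zero_add, Nat.add_sub_cancel]; ring
    rw [h6]
    have h7 : 2 * ((S.card + 1) * (k + 1)) = 2 * (S.card * (k + 1)) + 2 * (k + 1) := by ring
    rw [h7]
    omega

/-- at most five long lines -/
theorem card_long_le (hq : 2 * q + 9 < 7 * k) : (long 𝓛 B k).card ≤ 5 := by
  by_contra hcon
  push Not at hcon
  obtain ⟨S, hS, hcard⟩ := Finset.exists_subset_card_eq (show 6 ≤ (long 𝓛 B k).card by omega)
  have h1 := h.union_long S hS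
  have h2 : (S.biUnion fun l => l ∩ B).card ≤ B.card :=
    Finset.card_le_card (Finset.biUnion_subset.2 fun l _ => Finset.inter_subset_right)
  rw [hcard, ] at h1
  have h4 := h.cardB
  have h5 := h.qkd
  omega

/-- a line which is not long has a non-hole off all long lines, if it has a single hole -/
theorem exists_off (hlong : (long 𝓛 B k).card ≤ 5) (hq : 5 < q) {m : Finset P} (hm : m ∈ 𝓛) (hk : 6 ≤ k)
    (h1 : (m ∩ B).card = 1) : ∃ Z ∈ m, Z ∉ B ∧ ∀ l ∈ long 𝓛 B k, Z ∉ l := by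
  by_contra hcon
  push Not at hcon
  have h2 : m ⊆ (m ∩ B) ∪ (long 𝓛 B k).biUnion fun l => m ∩ l := by
    intro x hx
    rw [Finset.mem_union]
    by_cases hxB : x ∈ B
    · exact Or.inl (Finset.mem_inter.2 ⟨hx, hxB⟩)
    · obtain ⟨l, hl, hxl⟩ := hcon x hx hxB
      exact Or.inr (Finset.mem_biUnion.2 ⟨l, hl, Finset.mem_inter.2 ⟨hx, hxl⟩⟩)
  have h3 := (Finset.card_le_card h2).trans (Finset.card_union_le _ _)
  have h4 : ((long 𝓛 B k).biUnion fun l => m ∩ l).card ≤ (long 𝓛 B k).card := by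
    refine Finset.card_biUnion_le.trans ?_
    rw [Finset.card_eq_sum_ones]
    refine Finset.sum_le_sum fun l hl => ?_
    have hne : m ≠ l := by
      rintro rfl
      have := (mem_long.1 hl).2
      omega
    rw [h.meet m hm l (mem_long.1 hl).1 hne]
  rw [h.size m hm, h1] at h3
  omega

/-- (b) all tangent holes of a non-hole off `l₁` are on two long lines -/
theorem tang_two {l₁ : Finset P} (hl₁ : l₁ ∈ long 𝓛 B k) (h3 : 3 * d + 1 ≤ 2 * q) {Z : P} (hZ : Z ∉ B) (hZl : Z ∉ l₁) :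
    tang 𝓛 B Z ⊆ l₁ ∨ ∃ l' ∈ long 𝓛 B k, tang 𝓛 B Z \ l₁ ⊆ l' ∧ (tang 𝓛 B Z \ l₁).Nonempty := by
  rw [mem_long] at hl₁
  by_cases hne : (tang 𝓛 B Z \ l₁).Nonempty
  · right
    have h1 := h.card_tang_sdiff hZ hl₁.1 hZl
    have h2 := h.qkd
    obtain ⟨l', hl', h4⟩ := h.cb3 Z hZ l₁ hl₁.1 (by omega)
    refine ⟨l', mem_long.2 ⟨hl', ?_⟩, h4, hne⟩
    refine (h.cb1 Z hZ l₁ hl₁.1 hne).trans (Finset.card_le_card fun x hx => ?_)
    exact Finset.mem_inter.2 ⟨h4 hx, (mem_tang.1 (Finset.mem_sdiff.1 hx).1).1⟩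
  · left
    rw [Finset.not_nonempty_iff_eq_empty, Finset.sdiff_eq_empty_iff_subset] at hne
    exact hne

/-- (c) the hole of every tangent is on a long line -/
theorem hole_on_long {l₁ : Finset P} (hl₁ : l₁ ∈ long 𝓛 B k) (h3 : 3 * d + 1 ≤ 2 * q) (hq : 2 * q + 9 < 7 * k) (hk : 6 ≤ k)
    {m : Finset P} (hm : m ∈ 𝓛) (h1 : (m ∩ B).card = 1) {b : P} (hb : b ∈ m) (hbB : b ∈ B) :
    ∃ l ∈ long 𝓛 B k, b ∈ l := by
  have hqk := h.qkd
  obtain ⟨Z, hZm, hZB, hZ⟩ := h.exists_off (h.card_long_le hq) (by omega) hm hk h1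
  have hbt := h.mem_tang_of hZB hm hZm hb hbB h1
  rcases h.tang_two hl₁ h3 hZB (hZ l₁ hl₁) with h4 | ⟨l', hl', h4, -⟩
  · exact ⟨l₁, hl₁, h4 hbt⟩
  · by_cases hbl : b ∈ l₁
    · exact ⟨l₁, hl₁, hbl⟩
    · exact ⟨l', hl', h4 (Finset.mem_sdiff.2 ⟨hbt, hbl⟩)⟩

/-- a non-hole on a line -/
theorem exists_nonhole {l : Finset P} (hl : l ∈ 𝓛) (S : Finset P) (hS : (l ∩ B).card + S.card ≤ q) :
    ∃ X ∈ l, X ∉ B ∧ X ∉ S := by
  by_contra hcon
  push Not at hcon
  have h1 : l ⊆ (l ∩ B) ∪ S := by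
    intro x hx
    rw [Finset.mem_union]
    by_cases hxB : x ∈ B
    · exact Or.inl (Finset.mem_inter.2 ⟨hx, hxB⟩)
    · exact Or.inr (hcon x hx hxB)
  have h2 := (Finset.card_le_card h1).trans (Finset.card_union_le _ _)
  rw [h.size l hl] at h2
  omega

/-- (c') through a non-hole on a long line `l` there are at least `k + a` tangent holes, none of them on `l` -/
theorem tang_on_long {l : Finset P} (hl : l ∈ long 𝓛 B k) (hk : 6 ≤ k) {X : P} (hX : X ∉ B) (hXl : X ∈ l) :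
    k + (l ∩ B).card ≤ (tang 𝓛 B X).card ∧ ∀ b ∈ tang 𝓛 B X, b ∉ l := by
  have hl' := mem_long.1 hl
  constructor
  · rw [h.card_tang hX]
    exact h.tangents_ge hX hl'.1 hXl (by omega)
  · intro b hb hbl
    have := (mem_tang.1 hb).2 l hl'.1 hXl hbl
    omega

/-- (d) at least three long lines -/
theorem three_long {l₁ : Finset P} (hl₁ : l₁ ∈ long 𝓛 B k) (h3 : 3 * d + 1 ≤ 2 * q) (hq : 2 * q + 9 < 7 * k) (hk : 6 ≤ k)
    (l₂ l₃ : Finset P) (hl₂ : l₂ ∈ long 𝓛 B k) (hl₃ : l₃ ∈ long 𝓛 B k) :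
    ∃ l ∈ long 𝓛 B k, l ≠ l₂ ∧ l ≠ l₃ := by
  by_contra hcon
  push Not at hcon
  -- every long line is `l₂` or `l₃`
  have hall : ∀ l ∈ long 𝓛 B k, l = l₂ ∨ l = l₃ := by
    intro l hl
    by_cases h1 : l = l₂
    · exact Or.inl h1
    · exact Or.inr (hcon l hl h1)
  have key : ∀ l l' : Finset P, l ∈ long 𝓛 B k → l' ∈ long 𝓛 B k → (∀ x ∈ long 𝓛 B k, x = l ∨ x = l') →
      k + (l ∩ B).card ≤ (l' ∩ B).card := by
    intro l l' hl hl' hll
    have hL := mem_long.1 hl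
    obtain ⟨X, hX1, hX2, -⟩ := h.exists_nonhole hL.1 ∅ (by
      have := h.le l hL.1; have := h.qkd; simp; omega)
    obtain ⟨h1, h2⟩ := h.tang_on_long hl hk hX2 hX1
    refine h1.trans (Finset.card_le_card fun b hb => ?_)
    have hb' := mem_tang.1 hb
    have hne : X ≠ b := by rintro rfl; exact hX2 hb'.1
    obtain ⟨m, hm, h4, h5⟩ := h.two X b hne
    obtain ⟨x, hx, hbx⟩ := h.hole_on_long hl₁ h3 hq hk hm (hb'.2 m hm h4 h5) h5 hb'.1
    rcases hll x hx with rfl | rfl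
    · exact absurd hbx (h2 b hb)
    · exact Finset.mem_inter.2 ⟨hbx, hb'.1⟩
  have h4 := key l₂ l₃ hl₂ hl₃ hall
  have h5 := key l₃ l₂ hl₃ hl₂ fun x hx => (hall x hx).symm
  omega

/-- (e) the tangent holes of a non-hole off all long lines are on one long line -/
theorem tang_one {l₁ : Finset P} (hl₁ : l₁ ∈ long 𝓛 B k) (h3 : 3 * d + 1 ≤ 2 * q) (hq : 2 * q + 9 < 7 * k) (hk : 6 ≤ k)
    {Z : P} (hZ : Z ∉ B) (hZl : ∀ l ∈ long 𝓛 B k, Z ∉ l) : ∃ l ∈ long 𝓛 B k, tang 𝓛 B Z ⊆ l := by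
  rcases h.tang_two hl₁ h3 hZ (hZl l₁ hl₁) with h4 | ⟨l', hl', h4, hne⟩
  · exact ⟨l₁, hl₁, h4⟩
  by_cases hne' : (tang 𝓛 B Z \ l').Nonempty
  swap
  · rw [Finset.not_nonempty_iff_eq_empty, Finset.sdiff_eq_empty_iff_subset] at hne'
    exact ⟨l', hl', hne'⟩
  exfalso
  have hL1 := mem_long.1 hl₁
  have hL' := mem_long.1 hl'
  have h5 := h.cb1 Z hZ l₁ hL1.1 hne
  have h6 := h.cb1 Z hZ l' hL'.1 hne'
  have h7 : Disjoint (tang 𝓛 B Z \ l₁) (tang 𝓛 B Z \ l') := by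
    rw [Finset.disjoint_left]
    intro x hx hx'
    exact (Finset.mem_sdiff.1 hx').2 (h4 hx)
  have h8 : (tang 𝓛 B Z \ l₁).card + (tang 𝓛 B Z \ l').card ≤ (tang 𝓛 B Z).card := by
    rw [← Finset.card_union_of_disjoint h7]
    exact Finset.card_le_card (Finset.union_subset Finset.sdiff_subset Finset.sdiff_subset)
  -- a third long line
  obtain ⟨l₃, hl₃, h9, h10⟩ := h.three_long hl₁ h3 hq hk l₁ l' hl₁ hl'
  have hL3 := mem_long.1 hl₃
  -- the holes of `l₃` off `l₁ ∪ l'`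
  set C := ((l₃ ∩ B) \ l₁) \ l' with hC
  have hC1 : k ≤ C.card + 1 := by
    have h11 : (l₃ ∩ B).card ≤ ((l₃ ∩ B) \ l₁).card + 1 := by
      have := Finset.card_sdiff_add_card_inter (l₃ ∩ B) l₁
      have h12 : ((l₃ ∩ B) ∩ l₁).card ≤ 1 := by
        rw [← h.meet l₃ hL3.1 l₁ hL1.1 h9]
        exact Finset.card_le_card fun x hx => by
          rw [Finset.mem_inter, Finset.mem_inter] at hx
          exact Finset.mem_inter.2 ⟨hx.1.1, hx.2⟩
      omega
    have h13 : ((l₃ ∩ B) \ l₁).card ≤ C.card + 1 := by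
      have := Finset.card_sdiff_add_card_inter ((l₃ ∩ B) \ l₁) l'
      rw [← hC] at this
      have h12 : (((l₃ ∩ B) \ l₁) ∩ l').card ≤ 1 := by
        rw [← h.meet l₃ hL3.1 l' hL'.1 h10]
        exact Finset.card_le_card fun x hx => by
          rw [Finset.mem_inter, Finset.mem_sdiff, Finset.mem_inter] at hx
          exact Finset.mem_inter.2 ⟨hx.1.1.1, hx.2⟩
      omega
    omega
  -- these give non-tangents through `Z`
  have hZ3 : Z ∉ l₃ := hZl l₃ hl₃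
  have hsubt : ∀ b ∈ tang 𝓛 B Z, b ∈ l₁ ∨ b ∈ l' := by
    intro b hb
    by_cases h12 : b ∈ l₁
    · exact Or.inl h12
    · exact Or.inr (h4 (Finset.mem_sdiff.2 ⟨hb, h12⟩))
  have hnt : C.card ≤ ((𝓛.filter fun m => Z ∈ m).filter fun m => ¬ (m ∩ B).card = 1).card := by
    have hneb : ∀ b ∈ C, Z ≠ b := by
      rintro b hb rfl
      rw [hC, Finset.mem_sdiff, Finset.mem_sdiff, Finset.mem_inter] at hb
      exact hZ3 hb.1.1.1
    choose! f hf using fun b (hb : b ∈ C) => h.two Z b (hneb b hb)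
    refine Finset.card_le_card_of_injOn f ?_ ?_
    · intro b hb
      have hbC := Finset.mem_coe.1 hb
      have h12 := hf b hbC
      rw [hC, Finset.mem_sdiff, Finset.mem_sdiff, Finset.mem_inter] at hbC
      rw [Finset.mem_coe, Finset.mem_filter, Finset.mem_filter]
      refine ⟨⟨h12.1, h12.2.1⟩, fun h13 => ?_⟩
      rcases hsubt b (h.mem_tang_of hZ h12.1 h12.2.1 h12.2.2 hbC.1.1.2 h13) with h14 | h14
      · exact hbC.1.2 h14
      · exact hbC.2 h14
    · intro b hb b' hb' heq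
      have hbC := Finset.mem_coe.1 hb
      have hbC' := Finset.mem_coe.1 hb'
      have h12 := hf b hbC
      have h13 := hf b' hbC'
      rw [hC, Finset.mem_sdiff, Finset.mem_sdiff, Finset.mem_inter] at hbC hbC'
      have hne3 : f b ≠ l₃ := by intro h14; exact hZ3 (h14 ▸ h12.2.1)
      exact h.pt_unique h12.1 hL3.1 hne3 h12.2.2 (by rw [show f b = f b' from heq]; exact h13.2.2) hbC.1.1.1 hbC'.1.1.1
  have h14 := Finset.card_filter_add_card_filter_not (s := 𝓛.filter fun m => Z ∈ m) (fun m => (m ∩ B).card = 1)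
  rw [h.card_through Z, ← h.card_tang hZ] at h14
  have h15 := h.qkd
  omega

/-- **Step 2.** -/
theorem false_of_long' {l₁ : Finset P} (hl₁ : l₁ ∈ long 𝓛 B k) (h3 : 3 * d + 1 ≤ 2 * q) (hq : 2 * q + 9 < 7 * k)
    (hk1 : 6 ≤ k) : False := by
  have hqk := h.qkd
  have h5 := h.card_long_le hq
  have hL1 := mem_long.1 hl₁
  obtain ⟨X, hX1, hX2, -⟩ := h.exists_nonhole hL1.1 ∅ (by
      have := h.le l₁ hL1.1; simp; omega)
  obtain ⟨hX3, hX4⟩ := h.tang_on_long hl₁ hk1 hX2 hX1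
  -- the holes on two long lines
  set D := ((long 𝓛 B k).erase l₁).offDiag.biUnion (fun x => x.1 ∩ x.2) with hD
  have hDc : D.card ≤ 12 := by
    refine Finset.card_biUnion_le.trans ?_
    have h6 : ((long 𝓛 B k).erase l₁).card ≤ 4 := by
      rw [Finset.card_erase_of_mem hl₁]; omega
    have h7 : ∑ x ∈ ((long 𝓛 B k).erase l₁).offDiag, (x.1 ∩ x.2).card ≤
        ∑ x ∈ ((long 𝓛 B k).erase l₁).offDiag, 1 := by
      refine Finset.sum_le_sum fun x hx => ?_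
      rw [Finset.mem_offDiag] at hx
      rw [h.meet x.1 (mem_long.1 (Finset.mem_of_mem_erase hx.1)).1 x.2
        (mem_long.1 (Finset.mem_of_mem_erase hx.2.1)).1 hx.2.2]
    refine h7.trans ?_
    rw [Finset.sum_const, smul_eq_mul, mul_one, Finset.offDiag_card]
    interval_cases ((long 𝓛 B k).erase l₁).card <;> omega
  obtain ⟨b, hbT, hbD⟩ : ∃ b ∈ tang 𝓛 B X, b ∉ D := by
    by_contra hcon
    push Not at hcon
    have := Finset.card_le_card (show tang 𝓛 B X ⊆ D from fun b hb => hcon b hb)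
    omega
  have hbT' := mem_tang.1 hbT
  have hbB := hbT'.1
  have hXb : X ≠ b := by rintro rfl; exact hX2 hbB
  obtain ⟨m, hm, hXm, hbm⟩ := h.two X b hXb
  have hm1 := hbT'.2 m hm hXm hbm
  obtain ⟨l₂, hl₂, hbl₂⟩ := h.hole_on_long hl₁ h3 hq hk1 hm hm1 hbm hbB
  have hL2 := mem_long.1 hl₂
  have hbl₁ : b ∉ l₁ := hX4 b hbT
  have huniq : ∀ l ∈ long 𝓛 B k, b ∈ l → l = l₂ := by
    intro l hl hbl
    by_contra hne
    apply hbD
    rw [hD, Finset.mem_biUnion]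
    refine ⟨(l, l₂), ?_, Finset.mem_inter.2 ⟨hbl, hbl₂⟩⟩
    rw [Finset.mem_offDiag]
    exact ⟨Finset.mem_erase.2 ⟨by rintro rfl; exact hbl₁ hbl, hl⟩,
      Finset.mem_erase.2 ⟨by rintro rfl; exact hbl₁ hbl₂, hl₂⟩, hne⟩
  have hml₂ : m ≠ l₂ := by rintro rfl; omega
  obtain ⟨X', hX'1, hX'2, -⟩ := h.exists_nonhole hL2.1 ∅ (by
      have := h.le l₂ hL2.1; simp; omega)
  obtain ⟨hX'3, hX'4⟩ := h.tang_on_long hl₂ hk1 hX'2 hX'1
  have hX'm : X' ∉ m := by
    intro h6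
    exact hX'2 (h.pt_unique hm hL2.1 hml₂ h6 hbm hX'1 hbl₂ ▸ hbB)
  -- the tangents through `X'`
  have hW0 : ∀ b', ∃ W, b' ∈ tang 𝓛 B X' → W ∈ m ∧ ∃ m' ∈ 𝓛, X' ∈ m' ∧ b' ∈ m' ∧ W ∈ m' ∧ (m' ∩ B).card = 1 := by
    intro b'
    by_cases hb' : b' ∈ tang 𝓛 B X'
    · have hb'' := mem_tang.1 hb'
      have hne : X' ≠ b' := by rintro rfl; exact hX'2 hb''.1
      obtain ⟨m', hm', h6, h7⟩ := h.two X' b' hne
      have hmm : m' ≠ m := by rintro rfl; exact hX'm h6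
      obtain ⟨W, hW1, hW2⟩ := h.exists_pt hm' hm hmm
      exact ⟨W, fun _ => ⟨hW2, m', hm', h6, h7, hW1, hb''.2 m' hm' h6 h7⟩⟩
    · exact ⟨b', fun h6 => absurd h6 hb'⟩
  choose W hW using hW0
  obtain ⟨b', hb', hWb'⟩ : ∃ b' ∈ tang 𝓛 B X', ∀ l ∈ long 𝓛 B k, W b' ∉ l := by
    by_contra hcon
    push Not at hcon
    have h6 : (tang 𝓛 B X').card ≤ ((long 𝓛 B k).biUnion fun l => m ∩ l).card := by
      refine Finset.card_le_card_of_injOn W ?_ ?_
      · intro b' hb'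
        obtain ⟨l, hl, hWl⟩ := hcon b' (Finset.mem_coe.1 hb')
        exact Finset.mem_coe.2 (Finset.mem_biUnion.2 ⟨l, hl, Finset.mem_inter.2 ⟨(hW b' (Finset.mem_coe.1 hb')).1, hWl⟩⟩)
      · intro b' hb' b'' hb'' heq
        obtain ⟨h7, m', hm', h8, h9, h10, h11⟩ := hW b' (Finset.mem_coe.1 hb')
        obtain ⟨h7', m'', hm'', h8', h9', h10', h11'⟩ := hW b'' (Finset.mem_coe.1 hb'')
        have hXW : X' ≠ W b' := by intro h12; exact hX'm (h12 ▸ h7)
        have hmm : m' = m'' := h.eq_of_two hm' hm'' hXW h8 h10 h8' (by rw [show W b' = W b'' from heq]; exact h10')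
        subst hmm
        obtain ⟨x, hx⟩ := Finset.card_eq_one.1 h11
        have h12 : b' ∈ m' ∩ B := Finset.mem_inter.2 ⟨h9, (mem_tang.1 (Finset.mem_coe.1 hb')).1⟩
        have h13 : b'' ∈ m' ∩ B := Finset.mem_inter.2 ⟨h9', (mem_tang.1 (Finset.mem_coe.1 hb'')).1⟩
        rw [hx, Finset.mem_singleton] at h12 h13
        rw [h12, h13]
    have h7 : ((long 𝓛 B k).biUnion fun l => m ∩ l).card ≤ (long 𝓛 B k).card := by
      refine Finset.card_biUnion_le.trans ?_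
      rw [Finset.card_eq_sum_ones]
      refine Finset.sum_le_sum fun l hl => ?_
      have hne : m ≠ l := by
        rintro rfl
        have := (mem_long.1 hl).2
        omega
      rw [h.meet m hm l (mem_long.1 hl).1 hne]
    omega
  obtain ⟨hWm, m', hm', hX'm', hb'm', hWm', hm'1⟩ := hW b' hb'
  have hb'T := mem_tang.1 hb'
  have hb'l₂ : b' ∉ l₂ := hX'4 b' hb'
  have hWB : W b' ∉ B := by
    intro h6
    obtain ⟨x, hx⟩ := Finset.card_eq_one.1 hm1
    have h7 : W b' ∈ m ∩ B := Finset.mem_inter.2 ⟨hWm, h6⟩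
    have h8 : b ∈ m ∩ B := Finset.mem_inter.2 ⟨hbm, hbB⟩
    rw [hx, Finset.mem_singleton] at h7 h8
    have h9 : W b' = b := by rw [h7, h8]
    have h10 : X' ≠ b := by rintro rfl; exact hX'2 hbB
    have h11 : m' = l₂ := h.eq_of_two hm' hL2.1 h10 hX'm' (h9 ▸ hWm') hX'1 hbl₂
    exact hb'l₂ (h11 ▸ hb'm')
  obtain ⟨l, hl, hTl⟩ := h.tang_one hl₁ h3 hq hk1 hWB hWb'
  have h6 : b ∈ l := hTl (h.mem_tang_of hWB hm hWm hbm hbB hm1)
  have h7 : b' ∈ l := hTl (h.mem_tang_of hWB hm' hWm' hb'm' hb'T.1 hm'1)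
  rw [huniq l hl h6] at h7
  exact hb'l₂ h7

/-- **Step 2** for `q > 20`. -/
theorem false_of_long {l₁ : Finset P} (hl₁ : l₁ ∈ long 𝓛 B k) (h3 : 3 * d + 1 ≤ 2 * q) (hq : 20 < q) : False := by
  have hqk := h.qkd
  exact h.false_of_long' hl₁ h3 (by omega) (by omega)

end Pl

end H16.PS
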